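import Mathlib

/-!
# Length-area tools
-/

namespace H31.Orth

open Complex Metric Set Filter Topology MeasureTheory
open scoped ENNReal

lemma det_mul (w : ℂ) :
    ((ContinuousLinearMap.toSpanSingleton ℂ w).restrictScalars ℝ).det = ‖w‖ ^ 2 := by
  rw [← Complex.normSq_eq_norm_sq, ← Algebra.norm_complex_apply, Algebra.norm_apply]
  rw [ContinuousLinearMap.det]
  congr 1
  ext; simp [mul_comm]

lemma area_eq {P P' : ℂ → ℂ} {A : Set ℂ} (hA : MeasurableSet A)
    (hP : ∀ z ∈ A, HasDerivAt P (P' z) z) (hinj : InjOn P A) :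
    ∫⁻ z in A, ENNReal.ofReal (‖P' z‖ ^ 2) = volume (P '' A) := by
  rw [← lintegral_abs_det_fderiv_eq_addHaar_image volume hA
    (f' := fun z => (ContinuousLinearMap.toSpanSingleton ℂ (P' z)).restrictScalars ℝ) _ hinj]
  · apply lintegral_congr
    intro z
    rw [det_mul, abs_of_nonneg (by positivity)]
  · intro z hz
    exact ((hP z hz).hasFDerivAt.restrictScalars ℝ).hasFDerivWithinAt

lemma iterated_eq {A : Set ℂ} (hA : MeasurableSet A) {φ : ℂ → ℝ≥0∞}
    (hφ : AEMeasurable φ (volume.restrict A)) :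
    ∫⁻ u : ℝ, ∫⁻ v : ℝ, A.indicator φ (u + v * I) = ∫⁻ z in A, φ z := by
  rw [← lintegral_indicator hA]
  have h1 : AEMeasurable (A.indicator φ) volume := (aemeasurable_indicator_iff hA).2 hφ
  have mp := Complex.volume_preserving_equiv_real_prod.symm
  rw [← mp.lintegral_comp_emb (MeasurableEquiv.measurableEmbedding _)]
  have h2 : AEMeasurable (fun p : ℝ × ℝ => A.indicator φ (measurableEquivRealProd.symm p))
      volume := h1.comp_quasiMeasurePreserving mp.quasiMeasurePreserving
  rw [Measure.volume_eq_prod, lintegral_prod _ h2]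
  apply lintegral_congr
  intro u
  apply lintegral_congr
  intro v
  congr 1
  apply Complex.ext <;> simp [measurableEquivRealProd]

/-- length of an arc bounds the distance of end points -/
lemma seg_le {g g' : ℝ → ℂ} {α β : ℝ} (hαβ : α ≤ β) (hg : ∀ v ∈ Icc α β, HasDerivAt g (g' v) v)
    (hc : ContinuousOn g' (Icc α β)) :
    ENNReal.ofReal ‖g β - g α‖ ≤ ∫⁻ v in Ioo α β, ENNReal.ofReal ‖g' v‖ := by
  have hint : IntervalIntegrable g' volume α β := by
    apply ContinuousOn.intervalIntegrable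
    rwa [uIcc_of_le hαβ]
  have h1 : ∫ v in α..β, g' v = g β - g α :=
    intervalIntegral.integral_eq_sub_of_hasDerivAt (by rwa [uIcc_of_le hαβ]) hint
  have h2 : ‖g β - g α‖ ≤ ∫ v in α..β, ‖g' v‖ := by
    rw [← h1]
    exact intervalIntegral.norm_integral_le_integral_norm hαβ
  calc ENNReal.ofReal ‖g β - g α‖ ≤ ENNReal.ofReal (∫ v in α..β, ‖g' v‖) :=
        ENNReal.ofReal_le_ofReal h2
    _ = ENNReal.ofReal (∫ v in Ioo α β, ‖g' v‖) := by
        rw [intervalIntegral.integral_of_le hαβ, integral_Ioc_eq_integral_Ioo]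
    _ = ∫⁻ v in Ioo α β, ENNReal.ofReal ‖g' v‖ := by
        apply ofReal_integral_eq_lintegral_ofReal
        · have := hint.norm
          rw [intervalIntegrable_iff_integrableOn_Ioo_of_le hαβ] at this
          exact this
        · exact ae_of_all _ fun v => norm_nonneg _

/-- Lower bound of the length inside a ball. -/
lemma length_in_ball {g g' : ℝ → ℂ} {m M : ℝ} {c : ℂ} {d : ℝ} (hd : 0 < d)
    (hg : ∀ v ∈ Ioo m M, HasDerivAt g (g' v) v) (hc : ContinuousOn g' (Ioo m M))
    {va vb ve : ℝ} (hva : va ∈ Ioo m M) (hvb : vb ∈ Ioo m M) (hve : ve ∈ Ioo m M)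
    (ha : ‖g va - c‖ ≤ d) (hbe : d ≤ ‖g vb - g ve‖) :
    ENNReal.ofReal d ≤ ∫⁻ v in (Ioo m M) ∩ {v | ‖g v - c‖ < 2 * d}, ENNReal.ofReal ‖g' v‖ := by
  have hgc : ContinuousOn g (Ioo m M) := fun v hv => (hg v hv).continuousAt.continuousWithinAt
  -- a general segment bound
  have hseg : ∀ α β : ℝ, α ≤ β → α ∈ Ioo m M → β ∈ Ioo m M →
      (∀ v ∈ Ioo α β, ‖g v - c‖ < 2 * d) → d ≤ ‖g β - g α‖ →
      ENNReal.ofReal d ≤ ∫⁻ v in (Ioo m M) ∩ {v | ‖g v - c‖ < 2 * d}, ENNReal.ofReal ‖g' v‖ := by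
    intro α β hαβ hα hβ hin hdist
    have hsub : Icc α β ⊆ Ioo m M := fun v hv => ⟨hα.1.trans_le hv.1, hv.2.trans_lt hβ.2⟩
    calc ENNReal.ofReal d ≤ ENNReal.ofReal ‖g β - g α‖ := ENNReal.ofReal_le_ofReal hdist
      _ ≤ ∫⁻ v in Ioo α β, ENNReal.ofReal ‖g' v‖ :=
        seg_le hαβ (fun v hv => hg v (hsub hv)) (hc.mono hsub)
      _ ≤ _ := by
        apply lintegral_mono_set
        intro v hv
        exact ⟨hsub (Ioo_subset_Icc_self hv), hin v hv⟩
  -- reaching the complement of the ball from `va`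
  have hreach : ∀ v1 ∈ Ioo m M, 2 * d ≤ ‖g v1 - c‖ →
      ENNReal.ofReal d ≤ ∫⁻ v in (Ioo m M) ∩ {v | ‖g v - c‖ < 2 * d}, ENNReal.ofReal ‖g' v‖ := by
    intro v1 hv1 hout
    rcases le_total va v1 with hle | hle
    · have hsub : Icc va v1 ⊆ Ioo m M := fun v hv => ⟨hva.1.trans_le hv.1, hv.2.trans_lt hv1.2⟩
      set K : Set ℝ := Icc va v1 ∩ (fun v => ‖g v - c‖) ⁻¹' (Ici (2 * d)) with hK
      have hKc : IsCompact K := by
        apply isCompact_Icc.of_isClosed_subset _ inter_subset_left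
        apply ContinuousOn.preimage_isClosed_of_isClosed _ isClosed_Icc isClosed_Ici
        exact ((hgc.mono hsub).sub continuousOn_const).norm
      obtain ⟨β, hβK, hβ⟩ := hKc.exists_isLeast ⟨v1, right_mem_Icc.2 hle, hout⟩
      have hβ1 : va ≤ β := hβK.1.1
      have hβ2 : 2 * d ≤ ‖g β - c‖ := hβK.2
      apply hseg va β hβ1 hva (hsub hβK.1)
      · intro v hv
        by_contra hcon
        push Not at hcon
        have : β ≤ v := hβ ⟨⟨hv.1.le, hv.2.le.trans hβK.1.2⟩, hcon⟩
        linarith [hv.2]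
      · have := norm_sub_norm_le (g β - c) (g va - c)
        have h2 : g β - c - (g va - c) = g β - g va := by ring
        rw [h2] at this
        linarith
    · have hsub : Icc v1 va ⊆ Ioo m M := fun v hv => ⟨hv1.1.trans_le hv.1, hv.2.trans_lt hva.2⟩
      set K : Set ℝ := Icc v1 va ∩ (fun v => ‖g v - c‖) ⁻¹' (Ici (2 * d)) with hK
      have hKc : IsCompact K := by
        apply isCompact_Icc.of_isClosed_subset _ inter_subset_left
        apply ContinuousOn.preimage_isClosed_of_isClosed _ isClosed_Icc isClosed_Ici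
        exact ((hgc.mono hsub).sub continuousOn_const).norm
      obtain ⟨β, hβK, hβ⟩ := hKc.exists_isGreatest ⟨v1, left_mem_Icc.2 hle, hout⟩
      have hβ1 : β ≤ va := hβK.1.2
      have hβ2 : 2 * d ≤ ‖g β - c‖ := hβK.2
      apply hseg β va hβ1 (hsub hβK.1) hva
      · intro v hv
        by_contra hcon
        push Not at hcon
        have : v ≤ β := hβ ⟨⟨hβK.1.1.trans hv.1.le, hv.2.le⟩, hcon⟩
        linarith [hv.1]
      · have := norm_sub_norm_le (g β - c) (g va - c)
        have h2 : g β - c - (g va - c) = g β - g va := by ring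
        rw [h2, norm_sub_rev (g β) (g va)] at this
        linarith
  by_cases hall : ∀ v ∈ Ioo m M, ‖g v - c‖ < 2 * d
  · rcases le_total vb ve with h | h
    · apply hseg vb ve h hvb hve
      · intro v hv
        exact hall v ⟨hvb.1.trans hv.1, hv.2.trans hve.2⟩
      · rwa [norm_sub_rev]
    · apply hseg ve vb h hve hvb
      · intro v hv
        exact hall v ⟨hve.1.trans hv.1, hv.2.trans hvb.2⟩
      · exact hbe
  · push Not at hall
    obtain ⟨v1, hv1, hout⟩ := hall
    exact hreach v1 hv1 hout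

/-- Cauchy–Schwarz step. -/
lemma energy_lower {g g' : ℝ → ℂ} {m M : ℝ} {c : ℂ} {d : ℝ} (hd : 0 < d) (hmM : m < M)
    (hg : ∀ v ∈ Ioo m M, HasDerivAt g (g' v) v) (hc : ContinuousOn g' (Ioo m M))
    {va vb ve : ℝ} (hva : va ∈ Ioo m M) (hvb : vb ∈ Ioo m M) (hve : ve ∈ Ioo m M)
    (ha : ‖g va - c‖ ≤ d) (hbe : d ≤ ‖g vb - g ve‖) :
    ENNReal.ofReal (d ^ 2 / (M - m)) ≤
      ∫⁻ v in (Ioo m M) ∩ {v | ‖g v - c‖ < 2 * d}, ENNReal.ofReal (‖g' v‖ ^ 2) := by
  have hlen := length_in_ball hd hg hc hva hvb hve ha hbe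
  set A : Set ℝ := (Ioo m M) ∩ {v | ‖g v - c‖ < 2 * d} with hA
  set L := M - m with hL
  have hLpos : 0 < L := by rw [hL]; linarith
  set J := ∫⁻ v in A, ENNReal.ofReal (‖g' v‖ ^ 2) with hJ
  have h1 : ∫⁻ v in A, ENNReal.ofReal ‖g' v‖ ≤
      ENNReal.ofReal (L / (2 * d)) * J + ENNReal.ofReal (d / 2) := by
    calc ∫⁻ v in A, ENNReal.ofReal ‖g' v‖ ≤
        ∫⁻ v in A, (ENNReal.ofReal (L / (2 * d)) * ENNReal.ofReal (‖g' v‖ ^ 2) +
          ENNReal.ofReal (d / (2 * L))) := by
          apply lintegral_mono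
          intro v
          dsimp only
          rw [← ENNReal.ofReal_mul (by positivity), ← ENNReal.ofReal_add (by positivity)
            (by positivity)]
          apply ENNReal.ofReal_le_ofReal
          have h2 : 0 ≤ (L * ‖g' v‖ - d) ^ 2 := sq_nonneg _
          have h3 : L / (2 * d) * ‖g' v‖ ^ 2 + d / (2 * L) - ‖g' v‖ =
              (L * ‖g' v‖ - d) ^ 2 / (2 * d * L) := by
            field_simp
            ring
          have h4 : 0 ≤ (L * ‖g' v‖ - d) ^ 2 / (2 * d * L) := by positivity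
          linarith
      _ = ENNReal.ofReal (L / (2 * d)) * J + ENNReal.ofReal (d / (2 * L)) * volume A := by
          rw [lintegral_add_right _ measurable_const, lintegral_const_mul' _ _ (by simp),
            lintegral_const, Measure.restrict_apply_univ]
      _ ≤ ENNReal.ofReal (L / (2 * d)) * J + ENNReal.ofReal (d / (2 * L)) * ENNReal.ofReal L := by
          gcongr
          calc volume A ≤ volume (Ioo m M) := measure_mono inter_subset_left
            _ = ENNReal.ofReal L := by rw [Real.volume_Ioo]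
      _ = _ := by
          rw [← ENNReal.ofReal_mul (by positivity)]
          congr 2
          field_simp
  have h2 : ENNReal.ofReal (d / 2) ≤ ENNReal.ofReal (L / (2 * d)) * J := by
    have h3 : ENNReal.ofReal (d / 2) + ENNReal.ofReal (d / 2) ≤
        ENNReal.ofReal (L / (2 * d)) * J + ENNReal.ofReal (d / 2) := by
      rw [← ENNReal.ofReal_add (by positivity) (by positivity), add_halves]
      exact hlen.trans h1
    exact (ENNReal.add_le_add_iff_right ENNReal.ofReal_ne_top).1 h3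
  have h4 : ENNReal.ofReal (d ^ 2 / L) = ENNReal.ofReal (2 * d / L) * ENNReal.ofReal (d / 2) := by
    rw [← ENNReal.ofReal_mul (by positivity)]
    congr 1
    field_simp
  rw [h4]
  calc ENNReal.ofReal (2 * d / L) * ENNReal.ofReal (d / 2) ≤
      ENNReal.ofReal (2 * d / L) * (ENNReal.ofReal (L / (2 * d)) * J) := by gcongr
    _ = J := by
      rw [← mul_assoc, ← ENNReal.ofReal_mul (by positivity)]
      have : 2 * d / L * (L / (2 * d)) = 1 := by field_simp
      rw [this]
      simp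

end H31.Orth
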