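import Mathlib

/-!
# Schwarz–Pick in the right half-plane
-/

namespace H31.Orth

open Complex Metric Set Filter Topology ComplexConjugate

/-- The right half-plane. -/
def HH : Set ℂ := {z | 0 < z.re}

lemma mem_HH {z : ℂ} : z ∈ HH ↔ 0 < z.re := Iff.rfl

lemma isOpen_HH : IsOpen HH := isOpen_lt continuous_const Complex.continuous_re

lemma convex_HH : Convex ℝ HH := convex_halfSpace_re_gt 0

lemma isPreconnected_HH : IsPreconnected HH := convex_HH.isPreconnected

lemma one_mem_HH : (1 : ℂ) ∈ HH := by simp [mem_HH]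

lemma normSq_add_sub (z b : ℂ) :
    ‖z + conj b‖ ^ 2 - ‖z - b‖ ^ 2 = 4 * z.re * b.re := by
  rw [Complex.sq_norm, Complex.sq_norm, Complex.normSq_apply, Complex.normSq_apply]
  simp
  ring

lemma add_conj_ne_zero {z b : ℂ} (hz : z ∈ HH) (hb : b ∈ HH) : z + conj b ≠ 0 := by
  intro h
  have := congrArg Complex.re h
  simp at this
  rw [mem_HH] at hz hb
  linarith

lemma norm_sub_lt {z b : ℂ} (hz : z ∈ HH) (hb : b ∈ HH) : ‖z - b‖ < ‖z + conj b‖ := by
  have h := normSq_add_sub z b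
  rw [mem_HH] at hz hb
  have h1 : 0 < 4 * z.re * b.re := by positivity
  nlinarith [norm_nonneg (z - b), norm_nonneg (z + conj b)]

lemma norm_div_lt_one {z b : ℂ} (hz : z ∈ HH) (hb : b ∈ HH) :
    ‖(z - b) / (z + conj b)‖ < 1 := by
  rw [norm_div, div_lt_one (norm_pos_iff.2 (add_conj_ne_zero hz hb))]
  exact norm_sub_lt hz hb

lemma inv_mobius_mem {b ζ : ℂ} (hb : b ∈ HH) (hζ : ‖ζ‖ < 1) :
    (b + conj b * ζ) / (1 - ζ) ∈ HH := by
  rw [mem_HH] at *
  have h1 : (1 - ζ) ≠ 0 := by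
    intro h
    have : ζ = 1 := by linear_combination -h
    rw [this] at hζ
    simp at hζ
  have h2 : ((b + conj b * ζ) / (1 - ζ)).re = b.re * (1 - ‖ζ‖ ^ 2) / normSq (1 - ζ) := by
    rw [Complex.div_re, Complex.sq_norm, Complex.normSq_apply ζ]
    simp
    ring
  rw [h2]
  have h3 : 0 < normSq (1 - ζ) := Complex.normSq_pos.2 h1
  have h4 : 0 < 1 - ‖ζ‖ ^ 2 := by nlinarith [norm_nonneg ζ]
  positivity

/-- Schwarz–Pick inequality for holomorphic self-maps of the right half-plane. -/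
theorem schwarz_pick {G : ℂ → ℂ} (hG : DifferentiableOn ℂ G HH) (hm : MapsTo G HH HH)
    {a b : ℂ} (ha : a ∈ HH) (hb : b ∈ HH) :
    ‖G a - G b‖ * ‖a + conj b‖ ≤ ‖a - b‖ * ‖G a + conj (G b)‖ := by
  set ψ : ℂ → ℂ := fun ζ => (b + conj b * ζ) / (1 - ζ) with hψ
  set g : ℂ → ℂ := fun ζ => (G (ψ ζ) - G b) / (G (ψ ζ) + conj (G b)) with hg
  have hψm : ∀ ζ ∈ ball (0 : ℂ) 1, ψ ζ ∈ HH := by
    intro ζ hζ
    exact inv_mobius_mem hb (by simpa using hζ)
  have hψd : DifferentiableOn ℂ ψ (ball 0 1) := by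
    apply DifferentiableOn.div
    · fun_prop
    · fun_prop
    · intro ζ hζ h
      have : ζ = 1 := by linear_combination -h
      rw [this] at hζ
      simp at hζ
  have hGψ : DifferentiableOn ℂ (fun ζ => G (ψ ζ)) (ball 0 1) := hG.comp hψd hψm
  have hgd : DifferentiableOn ℂ g (ball 0 1) := by
    apply DifferentiableOn.div
    · exact hGψ.sub_const _
    · exact hGψ.add_const _
    · intro ζ hζ
      exact add_conj_ne_zero (hm (hψm ζ hζ)) (hm hb)
  have hg0 : g 0 = 0 := by simp [hg, hψ]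
  have hgm : MapsTo g (ball 0 1) (closedBall 0 1) := by
    intro ζ hζ
    have := norm_div_lt_one (hm (hψm ζ hζ)) (hm hb)
    rw [mem_closedBall_zero_iff]
    exact this.le
  have hζ : ‖(a - b) / (a + conj b)‖ < 1 := norm_div_lt_one ha hb
  have key := Complex.norm_le_norm_of_mapsTo_ball hgd hgm hg0 hζ
  have hψa : ψ ((a - b) / (a + conj b)) = a := by
    simp only [hψ]
    have h1 : a + conj b ≠ 0 := add_conj_ne_zero ha hb
    have h2 : b + conj b ≠ 0 := add_conj_ne_zero hb hb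
    have h3 : 1 - (a - b) / (a + conj b) = (b + conj b) / (a + conj b) := by
      field_simp
      ring
    rw [h3]
    field_simp
    ring
  simp only [hg, hψa, norm_div] at key
  have p1 : 0 < ‖a + conj b‖ := norm_pos_iff.2 (add_conj_ne_zero ha hb)
  have p2 : 0 < ‖G a + conj (G b)‖ := norm_pos_iff.2 (add_conj_ne_zero (hm ha) (hm hb))
  rw [div_le_div_iff₀ p2 p1] at key
  exact key

/-- If the pseudo-hyperbolic distance of `a`, `b` is at most `T < 1`, the moduli are comparable. -/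
lemma norm_le_of_pseudo {a b : ℂ} {T : ℝ} (hT : T < 1)
    (h : ‖a - b‖ ≤ T * ‖a + conj b‖) (hT0 : 0 ≤ T) :
    ‖a‖ ≤ (1 + T) / (1 - T) * ‖b‖ := by
  have h1 : ‖a‖ - ‖b‖ ≤ ‖a - b‖ := norm_sub_norm_le a b
  have h2 : ‖a + conj b‖ ≤ ‖a‖ + ‖b‖ := by
    refine (norm_add_le _ _).trans ?_
    simp
  have h3 : T * ‖a + conj b‖ ≤ T * (‖a‖ + ‖b‖) := by gcongr
  have h4 : ‖a‖ * (1 - T) ≤ (1 + T) * ‖b‖ := by nlinarith
  rw [div_mul_eq_mul_div, le_div_iff₀ (by linarith)]
  exact h4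

/-- Growth of a holomorphic self-map along the positive real axis. -/
lemma norm_real_le {G : ℂ → ℂ} (hG : DifferentiableOn ℂ G HH) (hm : MapsTo G HH HH)
    {x : ℝ} (hx : 1 ≤ x) : ‖G x‖ ≤ x * ‖G 1‖ := by
  have hxH : (x : ℂ) ∈ HH := by
    rw [mem_HH]; simp; linarith
  have key := schwarz_pick hG hm hxH one_mem_HH
  have e1 : ‖(x : ℂ) + conj (1 : ℂ)‖ = x + 1 := by
    have : (x : ℂ) + conj (1 : ℂ) = ((x + 1 : ℝ) : ℂ) := by simp
    rw [this, Complex.norm_real, Real.norm_eq_abs, abs_of_pos (by linarith)]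
  have e2 : ‖(x : ℂ) - 1‖ = x - 1 := by
    have : (x : ℂ) - (1 : ℂ) = ((x - 1 : ℝ) : ℂ) := by simp
    rw [this, Complex.norm_real, Real.norm_eq_abs, abs_of_nonneg (by linarith)]
  rw [e1, e2] at key
  have h := norm_le_of_pseudo (a := G x) (b := G 1) (T := (x - 1) / (x + 1))
    (by rw [div_lt_one (by linarith)]; linarith)
    (by rw [div_mul_eq_mul_div, le_div_iff₀ (by linarith)]; exact key)
    (div_nonneg (by linarith) (by linarith))
  have e3 : (1 + (x - 1) / (x + 1)) / (1 - (x - 1) / (x + 1)) = x := by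
    have : x + 1 ≠ 0 := by linarith
    field_simp
    ring_nf
  rw [e3] at h
  exact h

/-- Images of two points under any holomorphic self-map have comparable moduli, with a constant
depending only on the two points. -/
lemma norm_image_le {a b : ℂ} (ha : a ∈ HH) (hb : b ∈ HH) :
    ∃ K : ℝ, 1 ≤ K ∧ ∀ G : ℂ → ℂ, DifferentiableOn ℂ G HH → MapsTo G HH HH →
      ‖G a‖ ≤ K * ‖G b‖ := by
  have p1 : 0 < ‖a + conj b‖ := norm_pos_iff.2 (add_conj_ne_zero ha hb)
  set T := ‖a - b‖ / ‖a + conj b‖ with hT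
  have hT1 : T < 1 := by
    rw [hT, div_lt_one p1]
    exact norm_sub_lt ha hb
  have hT0 : 0 ≤ T := by positivity
  refine ⟨(1 + T) / (1 - T), ?_, ?_⟩
  · rw [le_div_iff₀ (by linarith)]
    linarith
  · intro G hG hm
    apply norm_le_of_pseudo hT1 _ hT0
    have key := schwarz_pick hG hm ha hb
    rw [hT, div_mul_eq_mul_div, le_div_iff₀ p1]
    exact key

end H31.Orth
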