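import Pool.Agent.H31.Orth.PartB

/-!
# The orbit does not come back much: final form
-/

namespace H31.Orth

open Complex Metric Set Filter Topology ComplexConjugate

lemma conj_mem {z : ℂ} (hz : z ∈ HH) : conj z ∈ HH := by
  rw [mem_HH, Complex.conj_re]; exact hz

lemma differentiableOn_conj {f : ℂ → ℂ} (hf : DifferentiableOn ℂ f HH) :
    DifferentiableOn ℂ (fun z => conj (f (conj z))) HH := by
  intro z hz
  have h1 : DifferentiableAt ℂ f (conj z) := hf.differentiableAt (isOpen_HH.mem_nhds (conj_mem hz))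
  have h2 := h1.hasDerivAt.conj_conj
  rw [Complex.conj_conj] at h2
  exact h2.differentiableAt.differentiableWithinAt

namespace HSemi

variable {Ψ : ℝ → ℂ → ℂ} {Q : ℂ → ℂ} (S : HSemi Ψ Q)

include S

lemma conj_semi : HSemi (fun t z => conj (Ψ t (conj z))) (fun z => conj (Q (conj z))) where
  holo t ht := differentiableOn_conj (S.holo t ht)
  maps t ht z hz := conj_mem (S.maps t ht (conj_mem hz))
  cont z hz := Complex.continuous_conj.comp_continuousOn (S.cont _ (conj_mem hz))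
  tend := by
    simpa using S.tend
  qholo := differentiableOn_conj S.qholo
  qinj := by
    intro x hx y hy hxy
    have h1 : Q (conj x) = Q (conj y) := star_injective hxy
    have h2 := S.qinj (conj_mem hx) (conj_mem hy) h1
    exact star_injective h2
  qsemi t ht z hz := by
    rw [Complex.conj_conj, S.qsemi t ht _ (conj_mem hz)]
    simp
  q1 := by
    simp [S.q1]

lemma partB_up {t s : ℝ} (ht : 0 ≤ t) (hts : t ≤ s) (him : 0 ≤ (Ψ t 1).im) :
    ‖Ψ t 1‖ ≤ 2 * Real.exp (4 * Real.pi ^ 2) * ‖Ψ s 1‖ := by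
  have hs : 0 ≤ s := ht.trans hts
  set ρ := ‖Ψ s 1‖ with hρ
  have hρ1 : 1 ≤ ρ := (S.orbit_one_le_re hs).trans (Complex.re_le_norm _)
  have hs2 : (√2) ^ 2 = 2 := Real.sq_sqrt (by norm_num)
  have hs2p : 0 < √2 := by positivity
  set E := Real.exp (4 * Real.pi ^ 2) with hE
  have hE1 : 1 ≤ E := by
    rw [hE]
    exact Real.one_le_exp (by positivity)
  have hx0 : 0 < (Ψ t 1).re := S.orbit_mem ht
  have hx : (Ψ t 1).re ≤ ρ := (S.orbit_re_mono ht hts).trans (Complex.re_le_norm _)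
  have hY : (Ψ t 1).im ≤ √2 * ρ * E := by
    rcases le_or_gt (Ψ t 1).im (√2 * ρ) with h | h
    · have : 0 ≤ √2 * ρ * (E - 1) := by
        have : 0 ≤ E - 1 := by linarith
        positivity
      nlinarith
    · have h1 := S.partB_log ht hts h
      have hYpos : 0 < (Ψ t 1).im := lt_trans (by positivity) h
      rw [← Real.log_div hYpos.ne' (by positivity), Real.log_le_iff_le_exp (by positivity),
        div_le_iff₀ (by positivity)] at h1
      linarith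
  have hn : ‖Ψ t 1‖ ^ 2 = (Ψ t 1).re ^ 2 + (Ψ t 1).im ^ 2 := by
    rw [Complex.sq_norm, Complex.normSq_apply]; ring
  have h1 : ‖Ψ t 1‖ ^ 2 ≤ (2 * E * ρ) ^ 2 := by
    rw [hn]
    have h2 : (Ψ t 1).re ^ 2 ≤ ρ ^ 2 := by gcongr
    have h3 : (Ψ t 1).im ^ 2 ≤ (√2 * ρ * E) ^ 2 := by gcongr
    have h4 : (√2 * ρ * E) ^ 2 = 2 * ρ ^ 2 * E ^ 2 := by
      rw [mul_pow, mul_pow, hs2]
    have h5 : ρ ^ 2 ≤ ρ ^ 2 * E ^ 2 := by
      have : 1 ≤ E ^ 2 := one_le_pow₀ hE1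
      nlinarith [sq_nonneg ρ]
    nlinarith
  exact (pow_le_pow_iff_left₀ (norm_nonneg _) (by positivity) two_ne_zero).1 h1

theorem partB {t s : ℝ} (ht : 0 ≤ t) (hts : t ≤ s) :
    ‖Ψ t 1‖ ≤ 2 * Real.exp (4 * Real.pi ^ 2) * ‖Ψ s 1‖ := by
  rcases le_total 0 (Ψ t 1).im with h | h
  · exact S.partB_up ht hts h
  · have := S.conj_semi.partB_up ht hts (by simpa using h)
    simpa using this

end HSemi

/-- The main estimate in the half-plane, from part A. -/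
theorem half_plane_aux {Ψ Ψ' : ℝ → ℂ → ℂ} {Q Q' : ℂ → ℂ} (S : HSemi Ψ Q) (S' : HSemi Ψ' Q')
    {G : ℂ → ℂ} {c : ℂ} (hm : MapsTo G HH HH)
    (hQG : ∀ z ∈ HH, Q' (G z) = Q z + c)
    (hA : ∀ {t : ℝ}, 0 ≤ t → ∀ {κ : ℝ}, 0 < κ → (∀ s, t ≤ s → κ ≤ ‖G (Ψ s 1)‖) →
      κ ≤ 64 * ‖G 1‖ * ‖Ψ t 1‖) :
    ∃ C : ℝ, 0 < C ∧ ∀ t, 0 ≤ t → ‖Ψ' t 1‖ ≤ C * ‖Ψ t 1‖ := by
  obtain ⟨K, hK1, hK⟩ := norm_image_le one_mem_HH (hm one_mem_HH)
  set E := 2 * Real.exp (4 * Real.pi ^ 2) with hE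
  have hEpos : 0 < E := by positivity
  have hKpos : 0 < K := by linarith
  have hG1 : 0 < ‖G 1‖ := by
    have : 0 < (G 1).re := hm one_mem_HH
    exact this.trans_le (Complex.re_le_norm _)
  refine ⟨E * K * (64 * ‖G 1‖), by positivity, ?_⟩
  intro t ht
  have hpos : 0 < ‖Ψ' t 1‖ :=
    lt_of_lt_of_le (by linarith [S'.orbit_one_le_re ht]) (Complex.re_le_norm _)
  have hconj : ∀ s, 0 ≤ s → G (Ψ s 1) = Ψ' s (G 1) := by
    intro s hs
    apply S'.qinj (hm (S.orbit_mem hs)) (S'.maps s hs (hm one_mem_HH))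
    rw [hQG _ (S.orbit_mem hs), S'.qsemi s hs _ (hm one_mem_HH), hQG 1 one_mem_HH,
      S.orbit_q hs, S.q1]
    ring
  have h1 := hA ht (κ := ‖Ψ' t 1‖ / (E * K)) (by positivity) (by
    intro s hts
    have hs : 0 ≤ s := ht.trans hts
    rw [div_le_iff₀ (by positivity)]
    have h2 := S'.partB ht hts
    have h3 := hK (Ψ' s) (S'.holo s hs) (S'.maps s hs)
    rw [← hconj s hs] at h3
    calc ‖Ψ' t 1‖ ≤ E * ‖Ψ' s 1‖ := h2
      _ ≤ E * (K * ‖G (Ψ s 1)‖) := by gcongr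
      _ = ‖G (Ψ s 1)‖ * (E * K) := by ring)
  rw [div_le_iff₀ (by positivity)] at h1
  linarith

end H31.Orth
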