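import Pool.Agent.H31.Orth.PartA
import Pool.Agent.H31.Orth.PartB2

/-!
# Main theorem in the half-plane
-/

namespace H31.Orth

open Complex Metric Set Filter Topology ComplexConjugate

lemma differentiableOn_of_comp {Q Q' G : ℂ → ℂ} {c : ℂ} (hQ : DifferentiableOn ℂ Q HH)
    (hQ' : DifferentiableOn ℂ Q' HH) (hinj : InjOn Q' HH) (hd : ∀ z ∈ HH, deriv Q' z ≠ 0)
    (hm : MapsTo G HH HH) (hQG : ∀ z ∈ HH, Q' (G z) = Q z + c) :
    DifferentiableOn ℂ G HH := by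
  intro z hz
  have hGz := hm hz
  have hs : HasStrictDerivAt Q' (deriv Q' (G z)) (G z) :=
    (hQ'.analyticOnNhd isOpen_HH (G z) hGz).hasStrictDerivAt
  set L := hs.localInverse Q' (deriv Q' (G z)) (G z) (hd _ hGz) with hL
  have hLd : HasStrictDerivAt L (deriv Q' (G z))⁻¹ (Q' (G z)) := hs.to_localInverse (hd _ hGz)
  have hr : ∀ᶠ x in 𝓝 (Q' (G z)), Q' (L x) = x := hs.eventually_right_inverse (hd _ hGz)
  have hL0 : L (Q' (G z)) = G z := by
    have h1 : ∀ᶠ x in 𝓝 (G z), L (Q' x) = x := hs.eventually_left_inverse (hd _ hGz)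
    exact h1.self_of_nhds
  have hLm : ∀ᶠ x in 𝓝 (Q' (G z)), L x ∈ HH := by
    have h1 : ContinuousAt L (Q' (G z)) := hLd.hasDerivAt.continuousAt
    apply h1.eventually_mem
    rw [hL0]
    exact isOpen_HH.mem_nhds hGz
  have hc : HasDerivAt (fun w => Q w + c) (deriv Q z) z :=
    ((hQ.differentiableAt (isOpen_HH.mem_nhds hz)).hasDerivAt).add_const c
  have hpt : Q' (G z) = Q z + c := hQG z hz
  rw [hpt] at hr hLm hLd
  have hcomp : HasDerivAt (fun w => L (Q w + c)) ((deriv Q' (G z))⁻¹ * deriv Q z) z :=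
    HasDerivAt.comp (h₂ := L) (h := fun w => Q w + c) z hLd.hasDerivAt hc
  have heq : G =ᶠ[𝓝 z] fun w => L (Q w + c) := by
    filter_upwards [hc.continuousAt.eventually hr, hc.continuousAt.eventually hLm,
      isOpen_HH.mem_nhds hz] with w h1 h2 h3
    apply hinj (hm h3) h2
    rw [h1, hQG w h3]
  exact (hcomp.congr_of_eventuallyEq heq).differentiableAt.differentiableWithinAt

/-- The main estimate in the half-plane. -/
theorem half_plane_main {Ψ Ψ' : ℝ → ℂ → ℂ} {Q Q' : ℂ → ℂ} (S : HSemi Ψ Q) (S' : HSemi Ψ' Q')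
    {G : ℂ → ℂ} {c : ℂ} (hm : MapsTo G HH HH) (hQG : ∀ z ∈ HH, Q' (G z) = Q z + c) :
    ∃ C : ℝ, 0 < C ∧ ∀ t, 0 ≤ t → ‖Ψ' t 1‖ ≤ C * ‖Ψ t 1‖ := by
  have hG : DifferentiableOn ℂ G HH :=
    differentiableOn_of_comp S.qholo S'.qholo S'.qinj (fun z hz => S'.deriv_ne_zero hz) hm hQG
  exact half_plane_aux S S' hm hQG (fun ht _ hκ hlow => S.partA hG hm ht hκ hlow)

end H31.Orth
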