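import Pool.Agent.H31.Orth.Wolff

/-!
# A minimum principle and the lower bound for the image of the orbit
-/

namespace H31.Orth

open Complex Metric Set Filter Topology ComplexConjugate

/-- Minimum principle for the real part of a holomorphic function in an (unbounded) subset of a
half-plane `{x' < re z}`, with one exceptional point `z'`. -/
lemma min_principle {x' : ℝ} (hx' : 1 ≤ x') {z' : ℂ} {W : Set ℂ} (hW : IsOpen W)
    (hWs : W ⊆ {z | x' < z.re}) {f : ℂ → ℂ}
    (hf : ∀ z : ℂ, x' ≤ z.re → z ≠ z' → DifferentiableAt ℂ f z)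
    (hb : ∀ z : ℂ, x' ≤ z.re → -1 ≤ (f z).re)
    (hfr : ∀ z ∈ frontier W, x' ≤ z.re → z ≠ z' → 0 ≤ (f z).re)
    (hz0 : ∀ ε > 0, ∃ r > 0, ∀ z : ℂ, ‖z - z'‖ ≤ r → x' ≤ z.re → -ε ≤ (f z).re)
    (hz' : z'.re = x') {p : ℂ} (hp : p ∈ W) : 0 ≤ (f p).re := by
  have hpx : x' < p.re := hWs hp
  have hp0 : 1 ≤ ‖p‖ := by
    have := Complex.re_le_norm p
    linarith
  have hpz : p ≠ z' := by
    rintro rfl
    linarith
  have main : ∀ ε > 0, -ε ≤ (f p).re + ε * Real.log ‖p‖ := by
    intro ε hε
    obtain ⟨r0, hr0, hr0'⟩ := hz0 ε hε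
    set r := min r0 (‖p - z'‖ / 2) with hr
    have hpz' : 0 < ‖p - z'‖ := norm_pos_iff.2 (sub_ne_zero.2 hpz)
    have hrpos : 0 < r := lt_min hr0 (by positivity)
    set R := max (‖p‖ + 1) (Real.exp (1 / ε)) with hR
    have hRpos : 0 < R := lt_max_of_lt_right (Real.exp_pos _)
    have hRlog : 1 ≤ ε * Real.log R := by
      have h1 : 1 / ε ≤ Real.log R := by
        rw [Real.le_log_iff_exp_le hRpos]
        exact le_max_right _ _
      calc (1 : ℝ) = ε * (1 / ε) := by field_simp
        _ ≤ ε * Real.log R := by gcongr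
    set W' := (W ∩ ball 0 R) ∩ {z : ℂ | r < ‖z - z'‖} with hW'
    have hW'o : IsOpen W' := by
      apply (hW.inter isOpen_ball).inter
      exact isOpen_lt continuous_const (by fun_prop)
    have hW'b : Bornology.IsBounded W' := isBounded_ball.subset (fun z hz => hz.1.2)
    have hcl : ∀ z ∈ closure W', x' ≤ z.re ∧ r ≤ ‖z - z'‖ := by
      intro z hz
      constructor
      · have : closure W' ⊆ {z : ℂ | x' ≤ z.re} := by
          apply closure_minimal _ (isClosed_le continuous_const Complex.continuous_re)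
          intro w hw
          have h1 : x' < w.re := hWs hw.1.1
          exact h1.le
        exact this hz
      · have : closure W' ⊆ {z : ℂ | r ≤ ‖z - z'‖} := by
          apply closure_minimal _ (isClosed_le continuous_const (by fun_prop))
          intro w hw
          have h1 : r < ‖w - z'‖ := hw.2
          exact h1.le
        exact this hz
    set F : ℂ → ℂ := fun z => Complex.exp (-(f z + ε * Complex.log z)) with hF
    have hFn : ∀ z : ℂ, ‖F z‖ = Real.exp (-((f z).re + ε * Real.log ‖z‖)) := by
      intro z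
      simp only [hF, Complex.norm_exp, Complex.neg_re, Complex.add_re, Complex.re_ofReal_mul,
        Complex.log_re]
    have hFd : DiffContOnCl ℂ F W' := by
      apply DifferentiableOn.diffContOnCl
      intro z hz
      obtain ⟨h1, h2⟩ := hcl z hz
      have h3 : z ≠ z' := by
        rintro rfl
        simp at h2
        linarith
      have h4 : z ∈ slitPlane := Or.inl (by linarith)
      apply DifferentiableAt.differentiableWithinAt
      apply DifferentiableAt.cexp
      apply DifferentiableAt.neg
      apply DifferentiableAt.add (hf z h1 h3)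
      exact (differentiableAt_log h4).const_mul _
    have hbd : ∀ z ∈ frontier W', ‖F z‖ ≤ Real.exp ε := by
      intro z hz
      have hzc : z ∈ closure W' := hz.1
      obtain ⟨h1, h2⟩ := hcl z hzc
      have h3 : z ≠ z' := by
        rintro rfl
        simp at h2
        linarith
      have hznot : z ∉ W' := by
        have := hz.2
        rwa [hW'o.interior_eq] at this
      rw [hFn, Real.exp_le_exp]
      have hz1 : 1 ≤ ‖z‖ := by
        have := Complex.re_le_norm z
        linarith
      have hlog : 0 ≤ ε * Real.log ‖z‖ := by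
        have := Real.log_nonneg hz1
        positivity
      by_cases hzW : z ∈ W
      · by_cases hzR : z ∈ ball (0 : ℂ) R
        · have h5 : ‖z - z'‖ ≤ r := by
            by_contra hcon
            push Not at hcon
            exact hznot ⟨⟨hzW, hzR⟩, hcon⟩
          have h6 := hr0' z (h5.trans (min_le_left _ _)) h1
          linarith
        · have h5 : R ≤ ‖z‖ := by simpa using hzR
          have h6 : Real.log R ≤ Real.log ‖z‖ := Real.log_le_log hRpos h5
          have h7 := hb z h1
          have h8 : ε * Real.log R ≤ ε * Real.log ‖z‖ := by gcongr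
          linarith
      · have hzf : z ∈ frontier W := by
          rw [hW.frontier_eq]
          refine ⟨?_, hzW⟩
          exact closure_mono (fun w hw => hw.1.1) hzc
        have h5 := hfr z hzf h1 h3
        linarith
    have hpW' : p ∈ W' := by
      refine ⟨⟨hp, ?_⟩, ?_⟩
      · simp only [mem_ball, dist_zero_right]
        exact lt_max_of_lt_left (by linarith)
      · have : r ≤ ‖p - z'‖ / 2 := min_le_right _ _
        change r < ‖p - z'‖
        linarith
    have key := Complex.norm_le_of_forall_mem_frontier_norm_le hW'b hFd hbd (subset_closure hpW')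
    rw [hFn, Real.exp_le_exp] at key
    linarith
  by_contra hneg
  push Not at hneg
  have hL : 0 ≤ Real.log ‖p‖ := Real.log_nonneg hp0
  have h := main (-(f p).re / (2 * (1 + Real.log ‖p‖))) (by
    apply div_pos (by linarith) (by positivity))
  set L := Real.log ‖p‖
  set ε := -(f p).re / (2 * (1 + L)) with hε
  have h2 : ε * (2 * (1 + L)) = -(f p).re := by
    rw [hε]; field_simp
  nlinarith

/-- The principal square root, as a holomorphic function on the half-plane. -/
noncomputable def rt (w : ℂ) : ℂ := Complex.exp (Complex.log w / 2)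

lemma rt_sq {w : ℂ} (hw : w ∈ HH) : rt w ^ 2 = w := by
  have h0 : w ≠ 0 := by
    rintro rfl
    simp [mem_HH] at hw
  rw [rt, ← Complex.exp_nat_mul]
  push_cast
  rw [mul_div_cancel₀ _ two_ne_zero, Complex.exp_log h0]

lemma rt_re_pos {w : ℂ} (hw : w ∈ HH) : 0 < (rt w).re := by
  rw [rt, Complex.exp_re]
  apply mul_pos (Real.exp_pos _)
  apply Real.cos_pos_of_mem_Ioo
  have h1 : (Complex.log w / 2).im = Complex.arg w / 2 := by
    have : Complex.log w / 2 = ((1 / 2 : ℝ) : ℂ) * Complex.log w := by push_cast; ring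
    rw [this, Complex.im_ofReal_mul, Complex.log_im]
    ring
  rw [h1]
  have h2 := abs_lt.1 (Complex.abs_arg_lt_pi_div_two_iff.2 (Or.inl hw))
  have h3 := Real.pi_pos
  constructor <;> linarith [h2.1, h2.2]

lemma two_rt_re_sq {w : ℂ} (hw : w ∈ HH) : 2 * (rt w).re ^ 2 = w.re + ‖w‖ := by
  have h1 := rt_sq hw
  have h2 : ‖rt w‖ ^ 2 = ‖w‖ := by rw [← norm_pow, h1]
  have h3 : (rt w ^ 2).re = w.re := by rw [h1]
  rw [Complex.sq_norm, Complex.normSq_apply] at h2
  rw [sq (rt w), Complex.mul_re] at h3
  linarith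

lemma differentiableAt_rt {w : ℂ} (hw : w ∈ HH) : DifferentiableAt ℂ rt w := by
  have h4 : w ∈ slitPlane := Or.inl hw
  exact ((differentiableAt_log h4).div_const 2).cexp

lemma smul_mem {w : ℂ} (hw : w ∈ HH) {κ : ℝ} (hκ : 0 < κ) : w / κ ∈ HH := by
  rw [mem_HH, Complex.div_ofReal_re]
  exact div_pos hw hκ

/-- Comparison of the superharmonic-type function with the harmonic measure of a half-line. -/
lemma key_A {x' : ℝ} (hx' : 1 ≤ x') {z' : ℂ} (hz' : z'.re = x') {W : Set ℂ} (hW : IsOpen W)
    (hWs : W ⊆ {z | x' < z.re}) {G : ℂ → ℂ} (hG : DifferentiableOn ℂ G HH) (hm : MapsTo G HH HH)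
    {κ : ℝ} (hκ : 0 < κ) {σ : ℝ} (hσ : σ = 1 ∨ σ = -1)
    (hfr : ∀ z ∈ frontier W, x' ≤ z.re → z ≠ z' →
      κ ≤ ‖G z‖ ∨ (z.re = x' ∧ σ * (z.im - z'.im) < 0))
    (hGz' : κ ≤ ‖G z'‖) {p : ℂ} (hp : p ∈ W) :
    1 / 2 + σ * arg (p - z') / Real.pi ≤ √2 * (rt (G p / κ)).re := by
  have hsub : ∀ z : ℂ, x' ≤ z.re → z ∈ HH := by
    intro z hz
    rw [mem_HH]; linarith
  set f : ℂ → ℂ := fun z =>
    (√2 : ℝ) * rt (G z / κ) - 1 / 2 + (σ / Real.pi : ℝ) * (I * Complex.log (z - z')) with hf
  have hfre : ∀ z, (f z).re = √2 * (rt (G z / κ)).re - 1 / 2 - σ * arg (z - z') / Real.pi := by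
    intro z
    simp only [hf, Complex.add_re, Complex.sub_re, Complex.mul_re,
      Complex.I_re, Complex.I_im, Complex.log_im, Complex.log_re]
    norm_num
    ring
  have hπ := Real.pi_pos
  have harg : ∀ z : ℂ, x' ≤ z.re → |σ * arg (z - z') / Real.pi| ≤ 1 / 2 := by
    intro z hz
    have h1 : |arg (z - z')| ≤ Real.pi / 2 := by
      rw [Complex.abs_arg_le_pi_div_two_iff, Complex.sub_re]
      linarith
    have h2 : |σ| = 1 := by rcases hσ with h | h <;> simp [h]
    rw [abs_div, abs_mul, h2, one_mul, abs_of_pos hπ, div_le_iff₀ hπ]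
    linarith
  have hrtpos : ∀ z : ℂ, z ∈ HH → 0 < √2 * (rt (G z / κ)).re := by
    intro z hz
    have := rt_re_pos (smul_mem (hm hz) hκ)
    positivity
  have hge1 : ∀ z : ℂ, z ∈ HH → κ ≤ ‖G z‖ → 1 ≤ √2 * (rt (G z / κ)).re := by
    intro z hz hk
    have h1 := two_rt_re_sq (smul_mem (hm hz) hκ)
    have h2 : 1 ≤ ‖G z / κ‖ := by
      rw [norm_div, Complex.norm_real, Real.norm_eq_abs, abs_of_pos hκ, one_le_div hκ]
      exact hk
    have h3 : 0 < (G z / κ).re := smul_mem (hm hz) hκ
    have h4 := hrtpos z hz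
    have h5 : (√2 * (rt (G z / κ)).re) ^ 2 = (G z / κ).re + ‖G z / κ‖ := by
      rw [mul_pow, Real.sq_sqrt (by norm_num), h1]
    nlinarith
  have key := min_principle hx' hW hWs (f := f) ?_ ?_ ?_ ?_ hz' hp
  · rw [hfre] at key
    linarith
  · -- differentiability
    intro z hz hne
    have hz0 := hsub z hz
    have h1 : DifferentiableAt ℂ (fun z => rt (G z / κ)) z := by
      have h2 : DifferentiableAt ℂ (fun z => G z / (κ : ℂ)) z :=
        (hG.differentiableAt (isOpen_HH.mem_nhds hz0)).div_const _
      exact DifferentiableAt.comp (g := rt) z (differentiableAt_rt (smul_mem (hm hz0) hκ)) h2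
    have h3 : z - z' ∈ slitPlane := by
      rw [Complex.mem_slitPlane_iff_not_le_zero]
      intro hle
      have hle' := Complex.le_def.1 hle
      simp only [Complex.sub_re, Complex.zero_re, Complex.sub_im, Complex.zero_im] at hle'
      apply hne
      apply Complex.ext
      · linarith [hle'.1]
      · linarith [hle'.2]
    have h4 : DifferentiableAt ℂ (fun z => Complex.log (z - z')) z :=
      (differentiableAt_log h3).comp z (differentiableAt_id.sub_const z')
    exact ((h1.const_mul _).sub_const _).add ((h4.const_mul _).const_mul _)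
  · intro z hz
    rw [hfre]
    have h1 := hrtpos z (hsub z hz)
    have h2 := abs_le.1 (harg z hz)
    linarith [h2.2]
  · intro z hzf hz hne
    rw [hfre]
    rcases hfr z hzf hz hne with h | ⟨h1, h2⟩
    · have h3 := hge1 z (hsub z hz) h
      have h4 := abs_le.1 (harg z hz)
      linarith [h4.2]
    · have h3 := hrtpos z (hsub z hz)
      have h4 : σ * arg (z - z') / Real.pi = -(1 / 2) := by
        rcases hσ with rfl | rfl
        · have h5 : arg (z - z') = -(Real.pi / 2) := by
            rw [Complex.arg_eq_neg_pi_div_two_iff]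
            simp only [Complex.sub_re, Complex.sub_im]
            constructor <;> linarith
          rw [h5]
          field_simp
        · have h5 : arg (z - z') = (Real.pi / 2) := by
            rw [Complex.arg_eq_pi_div_two_iff]
            simp only [Complex.sub_re, Complex.sub_im]
            constructor <;> linarith
          rw [h5]
          field_simp
      linarith
  · intro ε hε
    have hz'0 : z' ∈ HH := hsub z' hz'.ge
    have hc : ContinuousAt (fun z => √2 * (rt (G z / κ)).re) z' := by
      have h1 : DifferentiableAt ℂ (fun z => rt (G z / κ)) z' := by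
        have h2 : DifferentiableAt ℂ (fun z => G z / (κ : ℂ)) z' :=
          (hG.differentiableAt (isOpen_HH.mem_nhds hz'0)).div_const _
        exact DifferentiableAt.comp (g := rt) z' (differentiableAt_rt (smul_mem (hm hz'0) hκ)) h2
      exact (Complex.continuous_re.continuousAt.comp h1.continuousAt).const_mul _
    have h1 : 1 - ε < √2 * (rt (G z' / κ)).re := by
      have := hge1 z' hz'0 hGz'
      linarith
    have h2 := hc.eventually_const_lt h1
    obtain ⟨r, hr, hr'⟩ := Metric.eventually_nhds_iff_ball.1 h2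
    refine ⟨r / 2, by positivity, ?_⟩
    intro z hz hzx
    have h3 := hr' z (by rw [mem_ball, dist_eq_norm]; linarith)
    rw [hfre]
    have h4 := abs_le.1 (harg z hzx)
    linarith [h4.2]

lemma abs_arg_le_pi_div_four {ζ : ℂ} (h : |ζ.im| ≤ ζ.re) : |arg ζ| ≤ Real.pi / 4 := by
  have h0 : 0 ≤ ζ.re := (abs_nonneg _).trans h
  rw [Complex.arg_of_re_nonneg h0]
  have h1 : |ζ.im / ‖ζ‖| ≤ √2 / 2 := by
    rcases eq_or_ne ζ 0 with rfl | hne
    · simp; positivity
    have hp : 0 < ‖ζ‖ := norm_pos_iff.2 hne
    rw [abs_div, abs_norm, div_le_iff₀ hp]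
    have h2 : ‖ζ‖ ^ 2 = ζ.re ^ 2 + ζ.im ^ 2 := by
      rw [Complex.sq_norm, Complex.normSq_apply]; ring
    have h3 : (√2) ^ 2 = 2 := Real.sq_sqrt (by norm_num)
    apply abs_le_of_sq_le_sq _ (by positivity)
    rw [mul_pow, div_pow, h3, h2]
    have h4 : ζ.im ^ 2 ≤ ζ.re ^ 2 := by
      rw [← sq_abs ζ.im]
      gcongr
    linarith
  have h2 : Real.arcsin (√2 / 2) = Real.pi / 4 := by
    rw [← Real.sin_pi_div_four, Real.arcsin_sin] <;> linarith [Real.pi_pos]
  rw [abs_le] at h1 ⊢
  constructor
  · rw [← h2, ← Real.arcsin_neg]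
    exact Real.arcsin_le_arcsin h1.1
  · rw [← h2]
    exact Real.arcsin_le_arcsin h1.2

end H31.Orth
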