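import Pool.Agent.H31.Orth.MinPrinciple

/-!
# Lower bound for the orbit in terms of the tail of its image
-/

namespace H31.Orth

open Complex Metric Set Filter Topology ComplexConjugate

namespace HSemi

variable {Ψ : ℝ → ℂ → ℂ} {Q : ℂ → ℂ} (S : HSemi Ψ Q)

include S

lemma eq_orbit {z : ℂ} (hz : z ∈ HH) (him : (Q z).im = 0) (hre : 0 ≤ (Q z).re) :
    z = Ψ (Q z).re 1 := by
  apply S.qinj hz (S.orbit_mem hre)
  rw [S.orbit_q hre]
  apply Complex.ext <;> simp [him]

theorem partA {G : ℂ → ℂ} (hG : DifferentiableOn ℂ G HH) (hm : MapsTo G HH HH)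
    {t : ℝ} (ht : 0 ≤ t) {κ : ℝ} (hκ : 0 < κ) (hlow : ∀ s, t ≤ s → κ ≤ ‖G (Ψ s 1)‖) :
    κ ≤ 64 * ‖G 1‖ * ‖Ψ t 1‖ := by
  set z' := Ψ t 1 with hz'
  have hz'H : z' ∈ HH := S.orbit_mem ht
  have hz'q : Q z' = t := S.orbit_q ht
  set x' := z'.re with hx'
  have hx'1 : 1 ≤ x' := S.orbit_one_le_re ht
  set ρ := ‖z'‖ with hρ
  have hxρ : x' ≤ ρ := Complex.re_le_norm z'
  have hyρ : |z'.im| ≤ ρ := Complex.abs_im_le_norm z'
  set p : ℂ := ((2 * ρ : ℝ) : ℂ) with hp
  have hpre : p.re = 2 * ρ := by rw [hp, Complex.ofReal_re]
  have hpim : p.im = 0 := by rw [hp, Complex.ofReal_im]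
  have hpH : p ∈ HH := by rw [mem_HH, hpre]; linarith
  have hsub : ∀ z : ℂ, x' ≤ z.re → z ∈ HH := by
    intro z hz
    rw [mem_HH]; linarith
  have hargp : |arg (p - z')| ≤ Real.pi / 4 := by
    apply abs_arg_le_pi_div_four
    rw [Complex.sub_re, Complex.sub_im, hpre, hpim, zero_sub, abs_neg]
    linarith
  have hU : ∀ σ : ℝ, (σ = 1 ∨ σ = -1) → 1 / 4 ≤ 1 / 2 + σ * arg (p - z') / Real.pi := by
    intro σ hσ
    have h2 : |σ| = 1 := by rcases hσ with h | h <;> simp [h]
    have h3 : |σ * arg (p - z') / Real.pi| ≤ 1 / 4 := by
      rw [abs_div, abs_mul, h2, one_mul, abs_of_pos Real.pi_pos, div_le_iff₀ Real.pi_pos]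
      linarith
    have := (abs_le.1 h3).1
    linarith
  -- main claim
  have hV : 1 / 4 ≤ √2 * (rt (G p / κ)).re := by
    rcases S.dichotomy with hstrict | ⟨c, hc, hlin⟩
    · by_cases him : (Q p).im = 0
      · -- `p` is on the orbit tail
        have h1 : 0 ≤ (Q p).re ∧ t ≤ (Q p).re := by
          have : t ≤ (Q p).re := by
            by_contra hcon
            push Not at hcon
            have h2 := S.re_le_of_im_eq hpH hz'H (by rw [him, hz'q, Complex.ofReal_im])
              (by rw [hz'q, Complex.ofReal_re]; exact hcon)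
            rw [hpre] at h2
            linarith
          exact ⟨ht.trans this, this⟩
        have h2 := S.eq_orbit hpH him h1.1
        have h3 : κ ≤ ‖G p‖ := by
          rw [h2]
          exact hlow _ h1.2
        have h4 := two_rt_re_sq (smul_mem (hm hpH) hκ)
        have h5 : 1 ≤ ‖G p / κ‖ := by
          rw [norm_div, Complex.norm_real, Real.norm_eq_abs, abs_of_pos hκ, one_le_div hκ]
          exact h3
        have h6 : 0 < (G p / κ).re := smul_mem (hm hpH) hκ
        have h7 : 0 < (rt (G p / κ)).re := rt_re_pos (smul_mem (hm hpH) hκ)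
        have h8 : (√2 * (rt (G p / κ)).re) ^ 2 = (G p / κ).re + ‖G p / κ‖ := by
          rw [mul_pow, Real.sq_sqrt (by norm_num), h4]
        have h9 : 0 < √2 * (rt (G p / κ)).re := by positivity
        nlinarith
      · -- strict case with `W` one of the components
        obtain ⟨σ, hσ, hσp⟩ : ∃ σ : ℝ, (σ = 1 ∨ σ = -1) ∧ σ * (Q p).im < 0 := by
          rcases lt_or_gt_of_ne him with h | h
          · exact ⟨1, Or.inl rfl, by linarith⟩
          · exact ⟨-1, Or.inr rfl, by linarith⟩
        have hQc : ContinuousOn (fun z => σ * (Q z).im) HH :=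
          (Complex.continuous_im.comp_continuousOn S.qholo.continuousOn).const_mul _ |> fun h => h
        set W : Set ℂ := {z | x' < z.re} ∩ (fun z => σ * (Q z).im) ⁻¹' (Iio 0) with hW
        have hWo : IsOpen W := by
          apply ContinuousOn.isOpen_inter_preimage _ _ isOpen_Iio
          · apply hQc.mono
            intro z hz
            have hz1 : x' < z.re := hz
            exact hsub z hz1.le
          · exact isOpen_lt continuous_const Complex.continuous_re
        have hWs : W ⊆ {z | x' < z.re} := inter_subset_left
        have hpW : p ∈ W := by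
          refine ⟨?_, hσp⟩
          change x' < p.re
          rw [hpre]; linarith
        refine (hU σ hσ).trans (key_A hx'1 rfl hWo hWs hG hm hκ hσ ?_ (hlow t le_rfl) hpW)
        intro z hzf hzx hne
        have hzH := hsub z hzx
        have hle : σ * (Q z).im ≤ 0 := by
          by_contra hcon
          push Not at hcon
          have h1 : ContinuousAt (fun z => σ * (Q z).im) z :=
            hQc.continuousAt (isOpen_HH.mem_nhds hzH)
          have h2 := h1.eventually_const_lt hcon
          have h3 : ∃ᶠ w in 𝓝 z, w ∈ W := mem_closure_iff_frequently.1 hzf.1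
          obtain ⟨w, hw1, hw2⟩ := (h3.and_eventually h2).exists
          have hw3 : σ * (Q w).im < 0 := hw1.2
          linarith
        have hznot : z ∉ W := by
          have := hzf.2
          rwa [hWo.interior_eq] at this
        rcases hzx.eq_or_lt with heq | hlt
        · right
          refine ⟨heq.symm, ?_⟩
          by_contra hcon
          push Not at hcon
          have hnw := nw_of_pos S.qholo hstrict hz'H hzH (Ne.symm hne)
          rw [Complex.mul_re] at hnw
          simp only [Complex.sub_re, Complex.sub_im, Complex.conj_re, Complex.conj_im, hz'q,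
            Complex.ofReal_im, Complex.ofReal_re] at hnw
          rw [← heq, ← hx', sub_self, mul_zero, sub_zero] at hnw
          rcases hσ with rfl | rfl
          · nlinarith
          · nlinarith
        · left
          have h1 : (Q z).im = 0 := by
            have h2 : 0 ≤ σ * (Q z).im := by
              by_contra hcon
              push Not at hcon
              exact hznot ⟨hlt, hcon⟩
            have h3 : σ * (Q z).im = 0 := le_antisymm hle h2
            rcases hσ with rfl | rfl
            · linarith
            · linarith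
          have h4 : t ≤ (Q z).re := by
            by_contra hcon
            push Not at hcon
            have h2 := S.re_le_of_im_eq hzH hz'H (by rw [h1, hz'q, Complex.ofReal_im])
              (by rw [hz'q, Complex.ofReal_re]; exact hcon)
            linarith
          rw [S.eq_orbit hzH h1 (ht.trans h4)]
          exact hlow _ h4
    · -- degenerate case
      obtain ⟨σ, hσ, hσc⟩ : ∃ σ : ℝ, (σ = 1 ∨ σ = -1) ∧ σ * c < 0 := by
        rcases lt_or_gt_of_ne hc with h | h
        · exact ⟨1, Or.inl rfl, by linarith⟩
        · exact ⟨-1, Or.inr rfl, by linarith⟩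
      set W : Set ℂ := {z | x' < z.re} with hW
      have hWo : IsOpen W := isOpen_lt continuous_const Complex.continuous_re
      have hpW : p ∈ W := by
        change x' < p.re
        rw [hpre]; linarith
      have hqre : ∀ z ∈ HH, (Q z).re = -c * z.im := by
        intro z hz
        rw [hlin z hz]
        simp
      have hqim : ∀ z ∈ HH, (Q z).im = c * (z.re - 1) := by
        intro z hz
        rw [hlin z hz]
        simp
      have hx'eq : x' = 1 := by
        have h1 := hqim z' hz'H
        rw [hz'q, Complex.ofReal_im] at h1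
        have h2 : z'.re - 1 = 0 := by
          rcases mul_eq_zero.1 h1.symm with h | h
          · exact absurd h hc
          · exact h
        linarith
      refine (hU σ hσ).trans (key_A hx'1 rfl hWo subset_rfl hG hm hκ hσ ?_ (hlow t le_rfl) hpW)
      intro z hzf hzx hne
      have hzH := hsub z hzx
      have hznot : z ∉ W := by
        have := hzf.2
        rwa [hWo.interior_eq] at this
      have hzre : z.re = x' := le_antisymm (not_lt.1 hznot) hzx
      by_cases htu : t ≤ (Q z).re
      · left
        have h1 : (Q z).im = 0 := by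
          rw [hqim z hzH, hzre, hx'eq]; ring
        rw [S.eq_orbit hzH h1 (ht.trans htu)]
        exact hlow _ htu
      · right
        push Not at htu
        refine ⟨hzre, ?_⟩
        rw [hqre z hzH] at htu
        have h1 := hqre z' hz'H
        rw [hz'q, Complex.ofReal_re] at h1
        have h2 : 0 < c * (z.im - z'.im) := by linarith
        rcases hσ with rfl | rfl
        · nlinarith
        · nlinarith
  -- conclusion
  have h4 := two_rt_re_sq (smul_mem (hm hpH) hκ)
  have h8 : (√2 * (rt (G p / κ)).re) ^ 2 = (G p / κ).re + ‖G p / κ‖ := by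
    rw [mul_pow, Real.sq_sqrt (by norm_num), h4]
  have h9 : (G p / κ).re ≤ ‖G p / κ‖ := Complex.re_le_norm _
  have h10 : ‖G p / κ‖ = ‖G p‖ / κ := by
    rw [norm_div, Complex.norm_real, Real.norm_eq_abs, abs_of_pos hκ]
  have h11 : 1 / 32 ≤ ‖G p‖ / κ := by
    rw [h10] at h8 h9
    nlinarith
  rw [le_div_iff₀ hκ] at h11
  have h12 : ‖G p‖ ≤ 2 * ρ * ‖G 1‖ := by
    have := norm_real_le hG hm (x := 2 * ρ) (by linarith)
    exact this
  nlinarith

end HSemi

end H31.Orth
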