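import Pool.Agent.H31.Orth.Wolff
import Pool.Agent.H31.Orth.Area

/-!
# The orbit does not come back much: `|w_t| ≤ C |w_s|` for `t ≤ s`
-/

namespace H31.Orth

open Complex Metric Set Filter Topology ComplexConjugate MeasureTheory

/-- Polar representation on the right half-plane. -/
lemma exp_arg {b : ℂ} (hb : b ∈ HH) {u : ℝ} (hu : ‖b‖ = Real.exp u) :
    arg b ∈ Ioo (-(Real.pi / 2)) (Real.pi / 2) ∧ Complex.exp (u + arg b * I) = b := by
  constructor
  · exact abs_lt.1 (Complex.abs_arg_lt_pi_div_two_iff.2 (Or.inl hb))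
  · rw [Complex.exp_add, ← Complex.ofReal_exp, ← hu, Complex.norm_mul_exp_arg_mul_I]

lemma exp_mem {u v : ℝ} (hv : v ∈ Ioo (-(Real.pi / 2)) (Real.pi / 2)) :
    Complex.exp (u + v * I) ∈ HH := by
  rw [mem_HH, Complex.exp_re]
  apply mul_pos (Real.exp_pos _)
  apply Real.cos_pos_of_mem_Ioo
  simpa using hv

lemma exp_im (u v : ℝ) : (Complex.exp (u + v * I)).im = Real.exp u * Real.sin v := by
  rw [Complex.exp_im]; simp

lemma norm_exp_uv (u v : ℝ) : ‖Complex.exp (u + v * I)‖ = Real.exp u := by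
  rw [Complex.norm_exp]; simp

namespace HSemi

variable {Ψ : ℝ → ℂ → ℂ} {Q : ℂ → ℂ} (S : HSemi Ψ Q)

include S

/-- The geometric part of the length–area argument on each circular arc. -/
lemma arc_points {t s : ℝ} (ht : 0 ≤ t) (hts : t ≤ s) {ws : ℂ} (hwsH : ws ∈ HH)
    (hwsn : ‖ws‖ ≤ ‖Ψ s 1‖) (hwsre : (Q ws).re = t) {u : ℝ}
    (hu1 : √2 * ‖Ψ s 1‖ < Real.exp u) (hu2 : Real.exp u < (Ψ t 1).im) :
    ∃ va ∈ Ioo (-(Real.pi / 2)) (Real.pi / 2), ∃ vb ∈ Ioo (-(Real.pi / 2)) (Real.pi / 2),
      ∃ ve ∈ Ioo (-(Real.pi / 2)) (Real.pi / 2),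
      ‖Q (Complex.exp (u + va * I)) - t‖ ≤ -(Q ws).im ∧
      -(Q ws).im ≤ ‖Q (Complex.exp (u + vb * I)) - Q (Complex.exp (u + ve * I))‖ := by
  set ρ := ‖Ψ s 1‖ with hρ
  set r := Real.exp u with hr
  have hs : 0 ≤ s := ht.trans hts
  have hρ1 : 1 ≤ ρ := (S.orbit_one_le_re hs).trans (Complex.re_le_norm _)
  have hs2 : (√2) ^ 2 = 2 := Real.sq_sqrt (by norm_num)
  have hs2p : 0 < √2 := by positivity
  have hrpos : 0 < r := Real.exp_pos u
  have hr2 : 2 * ρ ^ 2 < r ^ 2 := by
    have h1 : (√2 * ρ) ^ 2 < r ^ 2 := by gcongr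
    rw [mul_pow, hs2] at h1
    exact h1
  have hρr : ρ < r := by nlinarith
  -- the function detecting the arc
  set F : ℝ → ℝ := fun τ => (Ψ τ 1).im - √(r ^ 2 - (Ψ τ 1).re ^ 2) with hF
  have hwc : ContinuousOn (fun τ => Ψ τ 1) (Ici 0) := S.cont 1 one_mem_HH
  have hFc : ContinuousOn F (Ici 0) := by
    apply ContinuousOn.sub
    · exact Complex.continuous_im.comp_continuousOn hwc
    · apply Real.continuous_sqrt.comp_continuousOn
      exact continuousOn_const.sub ((Complex.continuous_re.comp_continuousOn hwc).pow 2)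
  have hre : ∀ τ, 0 ≤ τ → τ ≤ s → 0 < (Ψ τ 1).re ∧ (Ψ τ 1).re ≤ ρ := by
    intro τ h0 h1
    refine ⟨S.orbit_mem h0, ?_⟩
    exact (S.orbit_re_mono h0 h1).trans (Complex.re_le_norm _)
  have hF0 : F 0 < 0 := by
    simp only [hF, S.zero one_mem_HH, Complex.one_im, Complex.one_re]
    have : 0 < √(r ^ 2 - 1 ^ 2) := by
      apply Real.sqrt_pos.2
      nlinarith
    linarith
  have hFt : 0 < F t := by
    have h1 : √(r ^ 2 - (Ψ t 1).re ^ 2) ≤ r := by
      rw [Real.sqrt_le_left hrpos.le]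
      nlinarith [sq_nonneg (Ψ t 1).re]
    simp only [hF]
    linarith
  have hFs : F s < 0 := by
    have h2 : (Ψ s 1).im ^ 2 = ρ ^ 2 - (Ψ s 1).re ^ 2 := by
      rw [hρ, Complex.sq_norm, Complex.normSq_apply]; ring
    have h1 : (Ψ s 1).im < √(r ^ 2 - (Ψ s 1).re ^ 2) := by
      apply Real.lt_sqrt_of_sq_lt
      rw [h2]
      nlinarith
    simp only [hF]
    linarith
  -- crossing points
  obtain ⟨τ1, hτ1, hτ1F⟩ : ∃ τ ∈ Icc 0 t, F τ = 0 := by
    have h1 := intermediate_value_Icc ht (hFc.mono Icc_subset_Ici_self)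
    exact h1 ⟨hF0.le, hFt.le⟩
  obtain ⟨τ2, hτ2, hτ2F⟩ : ∃ τ ∈ Icc t s, F τ = 0 := by
    have h1 := intermediate_value_Icc' hts (hFc.mono (fun x hx => ht.trans hx.1))
    exact h1 ⟨hFs.le, hFt.le⟩
  have hcross : ∀ τ, 0 ≤ τ → τ ≤ s → F τ = 0 → ‖Ψ τ 1‖ = Real.exp u ∧ ρ < (Ψ τ 1).im := by
    intro τ h0 h1 hFτ
    obtain ⟨hre0, hreρ⟩ := hre τ h0 h1
    have h2 : (Ψ τ 1).im = √(r ^ 2 - (Ψ τ 1).re ^ 2) := by
      simp only [hF] at hFτ
      linarith
    have h3 : 0 ≤ r ^ 2 - (Ψ τ 1).re ^ 2 := by nlinarith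
    have h4 : (Ψ τ 1).im ^ 2 = r ^ 2 - (Ψ τ 1).re ^ 2 := by
      rw [h2, Real.sq_sqrt h3]
    constructor
    · have h5 : ‖Ψ τ 1‖ ^ 2 = r ^ 2 := by
        rw [Complex.sq_norm, Complex.normSq_apply]; nlinarith
      exact (pow_left_inj₀ (norm_nonneg _) hrpos.le two_ne_zero).1 h5
    · rw [h2]
      apply Real.lt_sqrt_of_sq_lt
      nlinarith
  obtain ⟨hb1, hb2⟩ := hcross τ1 hτ1.1 (hτ1.2.trans hts) hτ1F
  obtain ⟨hf1, hf2⟩ := hcross τ2 (ht.trans hτ2.1) hτ2.2 hτ2F
  set b := Ψ τ1 1 with hb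
  set f := Ψ τ2 1 with hf
  have hbH : b ∈ HH := S.orbit_mem hτ1.1
  have hfH : f ∈ HH := S.orbit_mem (ht.trans hτ2.1)
  have hbQ : Q b = τ1 := S.orbit_q hτ1.1
  have hfQ : Q f = τ2 := S.orbit_q (ht.trans hτ2.1)
  obtain ⟨hbI, hbE⟩ := exp_arg hbH hb1
  obtain ⟨hfI, hfE⟩ := exp_arg hfH hf1
  -- continuity of `Q` on the arc
  have hQc : ContinuousOn (fun v : ℝ => (Q (Complex.exp (u + v * I))).re)
      (Ioo (-(Real.pi / 2)) (Real.pi / 2)) := by
    apply Complex.continuous_re.comp_continuousOn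
    apply S.qholo.continuousOn.comp (by fun_prop)
    intro v hv
    exact exp_mem hv
  have hsubI : uIcc (arg b) (arg f) ⊆ Ioo (-(Real.pi / 2)) (Real.pi / 2) := by
    intro v hv
    rw [mem_uIcc] at hv
    rcases hv with hv | hv
    · exact ⟨hbI.1.trans_le hv.1, hv.2.trans_lt hfI.2⟩
    · exact ⟨hfI.1.trans_le hv.1, hv.2.trans_lt hbI.2⟩
  obtain ⟨va, hva, hvaQ⟩ : ∃ va ∈ uIcc (arg b) (arg f),
      (Q (Complex.exp (u + va * I))).re = t := by
    have h1 := intermediate_value_uIcc (hQc.mono hsubI)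
    rw [hbE, hfE, hbQ, hfQ] at h1
    have h2 : t ∈ uIcc (τ1 : ℂ).re (τ2 : ℂ).re := by
      rw [Complex.ofReal_re, Complex.ofReal_re, mem_uIcc]
      exact Or.inl ⟨hτ1.2, hτ2.1⟩
    exact h1 h2
  have hvaI := hsubI hva
  set a := Complex.exp (u + va * I) with ha
  have haH : a ∈ HH := exp_mem hvaI
  have haim : ρ < a.im := by
    have hbim : b.im = Real.exp u * Real.sin (arg b) := by
      rw [← exp_im, hbE]
    have hfim : f.im = Real.exp u * Real.sin (arg f) := by
      rw [← exp_im, hfE]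
    have haim' : a.im = Real.exp u * Real.sin va := exp_im u va
    rw [mem_uIcc] at hva
    rcases hva with hv | hv
    · have h1 : Real.sin (arg b) ≤ Real.sin va :=
        Real.strictMonoOn_sin.monotoneOn (Ioo_subset_Icc_self hbI) (Ioo_subset_Icc_self hvaI) hv.1
      rw [haim']
      rw [hbim] at hb2
      nlinarith
    · have h1 : Real.sin (arg f) ≤ Real.sin va :=
        Real.strictMonoOn_sin.monotoneOn (Ioo_subset_Icc_self hfI) (Ioo_subset_Icc_self hvaI) hv.1
      rw [haim']
      rw [hfim] at hf2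
      nlinarith
  have hale : a.im < (Ψ t 1).im := by
    have h1 : a.im ≤ ‖a‖ := Complex.im_le_norm a
    rw [ha, norm_exp_uv] at h1
    exact h1.trans_lt hu2
  have hwsim : |ws.im| ≤ ρ := (Complex.abs_im_le_norm ws).trans hwsn
  have hwsre' : ws.re ≤ ρ := (Complex.re_le_norm ws).trans hwsn
  have hwsrepos : 0 < ws.re := hwsH
  -- the point `e`
  set e : ℂ := ⟨ws.re, -√(r ^ 2 - ws.re ^ 2)⟩ with he
  have heH : e ∈ HH := hwsH
  have h3 : 0 ≤ r ^ 2 - ws.re ^ 2 := by nlinarith
  have hen : ‖e‖ = Real.exp u := by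
    have h5 : ‖e‖ ^ 2 = r ^ 2 := by
      rw [Complex.sq_norm, Complex.normSq_apply]
      simp only [he]
      have := Real.mul_self_sqrt h3
      nlinarith
    exact (pow_left_inj₀ (norm_nonneg _) hrpos.le two_ne_zero).1 h5
  have heim : e.im < ws.im := by
    have h6 : |ws.im| < √(r ^ 2 - ws.re ^ 2) := by
      apply Real.lt_sqrt_of_sq_lt
      have h7 : ws.re ^ 2 + ws.im ^ 2 ≤ ρ ^ 2 := by
        have : ‖ws‖ ^ 2 = ws.re ^ 2 + ws.im ^ 2 := by
          rw [Complex.sq_norm, Complex.normSq_apply]; ring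
        rw [← this]
        gcongr
      rw [sq_abs]
      nlinarith
    have h8 := neg_abs_le ws.im
    simp only [he]
    linarith
  obtain ⟨heI, heE⟩ := exp_arg heH hen
  refine ⟨va, hvaI, arg b, hbI, arg e, heI, ?_, ?_⟩
  · -- `|Q a - t| ≤ d`
    have h9 : Q a - t = ((Q a).im : ℂ) * I := by
      apply Complex.ext <;> simp [hvaQ]
    rw [h9, norm_mul, Complex.norm_I, mul_one, Complex.norm_real, Real.norm_eq_abs, abs_le]
    constructor
    · have h10 := S.im_mul_nonneg hwsH haH (by rw [hwsre, hvaQ])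
      have h11 : 0 < a.im - ws.im := by
        have := (abs_le.1 hwsim).2
        linarith
      have h12 : 0 ≤ (Q a).im - (Q ws).im := nonneg_of_mul_nonneg_left h10 h11
      linarith
    · have h10 := S.im_mul_nonneg haH (S.orbit_mem ht) (by
        rw [S.orbit_q ht, hvaQ, Complex.ofReal_re])
      rw [S.orbit_q ht, Complex.ofReal_im] at h10
      have h11 : 0 < (Ψ t 1).im - a.im := by linarith
      have h12 : 0 ≤ 0 - (Q a).im := nonneg_of_mul_nonneg_left h10 h11
      have h13 := S.im_mul_nonneg hwsH (S.orbit_mem ht) (by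
        rw [S.orbit_q ht, hwsre, Complex.ofReal_re])
      rw [S.orbit_q ht, Complex.ofReal_im] at h13
      have h14 : 0 < (Ψ t 1).im - ws.im := by
        have := (abs_le.1 hwsim).2
        linarith
      have h15 : 0 ≤ 0 - (Q ws).im := nonneg_of_mul_nonneg_left h13 h14
      linarith
  · rw [hbE, heE]
    have h10 := S.im_mul_nonneg' heH hwsH rfl
    have h11 : 0 < ws.im - e.im := by linarith
    have h12 : 0 ≤ (Q ws).im - (Q e).im := nonneg_of_mul_nonneg_left h10 h11
    have h13 : (Q b - Q e).im ≤ ‖Q b - Q e‖ := Complex.im_le_norm _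
    rw [Complex.sub_im, hbQ, Complex.ofReal_im] at h13
    rw [hbQ]
    linarith

lemma partB_log {t s : ℝ} (ht : 0 ≤ t) (hts : t ≤ s) (hY : √2 * ‖Ψ s 1‖ < (Ψ t 1).im) :
    Real.log (Ψ t 1).im - Real.log (√2 * ‖Ψ s 1‖) ≤ 4 * Real.pi ^ 2 := by
  have hs : 0 ≤ s := ht.trans hts
  set ρ := ‖Ψ s 1‖ with hρ
  have hρ1 : 1 ≤ ρ := (S.orbit_one_le_re hs).trans (Complex.re_le_norm _)
  have hs2 : (√2) ^ 2 = 2 := Real.sq_sqrt (by norm_num)
  have hs2p : 0 < √2 := by positivity
  have hs21 : 1 < √2 := Real.one_lt_sqrt_two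
  have hρY : ρ < (Ψ t 1).im := by nlinarith
  -- the point `ws`
  obtain ⟨ws, hwsH, hwsn, hwsre⟩ : ∃ ws ∈ HH, ‖ws‖ ≤ ρ ∧ (Q ws).re = t := by
    have hc : ContinuousOn (fun x : ℝ => (Q (1 + x * (Ψ s 1 - 1))).re) (Icc 0 1) := by
      apply Complex.continuous_re.comp_continuousOn
      apply S.qholo.continuousOn.comp (by fun_prop)
      intro x hx
      exact seg_mem one_mem_HH (S.orbit_mem hs) hx
    have h1 := intermediate_value_Icc zero_le_one hc
    have h2 : t ∈ Icc (Q (1 + (0 : ℝ) * (Ψ s 1 - 1))).re (Q (1 + (1 : ℝ) * (Ψ s 1 - 1))).re := by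
      rw [Complex.ofReal_zero, zero_mul, add_zero, Complex.ofReal_one, one_mul, add_sub_cancel,
        S.q1, S.orbit_q hs, Complex.zero_re, Complex.ofReal_re]
      exact ⟨ht, hts⟩
    obtain ⟨x, hx, hxQ⟩ := h1 h2
    refine ⟨1 + x * (Ψ s 1 - 1), seg_mem one_mem_HH (S.orbit_mem hs) hx, ?_, hxQ⟩
    have h3 : (1 : ℂ) + x * (Ψ s 1 - 1) = ((1 - x : ℝ) : ℂ) + (x : ℂ) * Ψ s 1 := by
      push_cast; ring
    rw [h3]
    refine (norm_add_le _ _).trans ?_
    rw [norm_mul, Complex.norm_real, Complex.norm_real, Real.norm_eq_abs, Real.norm_eq_abs,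
      abs_of_nonneg hx.1, abs_of_nonneg (by linarith [hx.2])]
    have : 0 ≤ (1 - x) * (ρ - 1) := mul_nonneg (by linarith [hx.2]) (by linarith)
    nlinarith
  set d := -(Q ws).im with hd
  have hdpos : 0 < d := by
    have h13 := S.im_mul_nonneg hwsH (S.orbit_mem ht) (by
      rw [S.orbit_q ht, hwsre, Complex.ofReal_re])
    rw [S.orbit_q ht, Complex.ofReal_im] at h13
    have hwsim : |ws.im| ≤ ρ := (Complex.abs_im_le_norm ws).trans hwsn
    have h14 : 0 < (Ψ t 1).im - ws.im := by
      have := (abs_le.1 hwsim).2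
      linarith
    have h15 : 0 ≤ 0 - (Q ws).im := nonneg_of_mul_nonneg_left h13 h14
    have h16 : (Q ws).im ≠ 0 := by
      intro h0
      have h17 : ws = Ψ t 1 := by
        apply S.qinj hwsH (S.orbit_mem ht)
        rw [S.orbit_q ht]
        apply Complex.ext <;> simp [h0, hwsre]
      rw [h17] at h14
      simp at h14
    have h18 : 0 ≤ d := by rw [hd]; linarith
    exact lt_of_le_of_ne h18 (by rw [hd]; intro h; apply h16; linarith)
  -- the map `P`
  set P : ℂ → ℂ := fun z => Q (Complex.exp z) with hP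
  set P' : ℂ → ℂ := fun z => deriv Q (Complex.exp z) * Complex.exp z with hP'
  set m := -(Real.pi / 2) with hm
  set M := Real.pi / 2 with hM
  set u0 := Real.log (√2 * ρ) with hu0
  set u1 := Real.log (Ψ t 1).im with hu1
  have hYpos : 0 < (Ψ t 1).im := by linarith
  have hu01 : u0 < u1 := Real.log_lt_log (by positivity) hY
  set R : Set ℂ := {z : ℂ | (u0 < z.re ∧ z.re < u1) ∧ (m < z.im ∧ z.im < M)} with hR
  have hRo : IsOpen R := by
    apply IsOpen.and <;> apply IsOpen.and
    · exact isOpen_lt continuous_const Complex.continuous_re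
    · exact isOpen_lt Complex.continuous_re continuous_const
    · exact isOpen_lt continuous_const Complex.continuous_im
    · exact isOpen_lt Complex.continuous_im continuous_const
  have hRexp : ∀ z ∈ R, Complex.exp z ∈ HH := by
    intro z hz
    have := exp_mem (u := z.re) (v := z.im) ⟨hz.2.1, hz.2.2⟩
    rwa [Complex.re_add_im] at this
  have hPd : ∀ z ∈ R, HasDerivAt P (P' z) z := by
    intro z hz
    exact (S.hasDerivAt (hRexp z hz)).comp z (Complex.hasDerivAt_exp z)
  have hPc : ContinuousOn P R := fun z hz => (hPd z hz).continuousAt.continuousWithinAt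
  have hdc : ContinuousOn (deriv Q) HH :=
    ((S.qholo.analyticOnNhd isOpen_HH).deriv).continuousOn
  have hP'c : ContinuousOn P' R := by
    apply ContinuousOn.mul
    · exact hdc.comp (by fun_prop) hRexp
    · fun_prop
  set A : Set ℂ := R ∩ (fun z => ‖P z - t‖) ⁻¹' (Iio (2 * d)) with hA
  have hAo : IsOpen A :=
    ContinuousOn.isOpen_inter_preimage ((hPc.sub continuousOn_const).norm) hRo isOpen_Iio
  have hAm : MeasurableSet A := hAo.measurableSet
  have hinj : InjOn P A := by
    intro x hx y hy hxy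
    have h1 : Complex.exp x = Complex.exp y := S.qinj (hRexp x hx.1) (hRexp y hy.1) hxy
    have hpi := Real.pi_pos
    apply Complex.exp_inj_of_neg_pi_lt_of_le_pi _ _ _ _ h1
    · have := hx.1.2.1; rw [hm] at this; linarith
    · have := hx.1.2.2; rw [hM] at this; linarith
    · have := hy.1.2.1; rw [hm] at this; linarith
    · have := hy.1.2.2; rw [hM] at this; linarith
  have harea : ∫⁻ z in A, ENNReal.ofReal (‖P' z‖ ^ 2) = volume (P '' A) :=
    area_eq hAm (fun z hz => hPd z hz.1) hinj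
  have hupper : ∫⁻ z in A, ENNReal.ofReal (‖P' z‖ ^ 2) ≤
      ENNReal.ofReal (4 * d ^ 2 * Real.pi) := by
    rw [harea]
    calc volume (P '' A) ≤ volume (ball (t : ℂ) (2 * d)) := by
          apply measure_mono
          rintro _ ⟨z, hz, rfl⟩
          rw [mem_ball, dist_eq_norm]
          exact hz.2
      _ = ENNReal.ofReal (4 * d ^ 2 * Real.pi) := by
          rw [Complex.volume_ball, ← ENNReal.ofReal_pow (by positivity)]
          have h1 : ((NNReal.pi : NNReal) : ENNReal) = ENNReal.ofReal Real.pi := by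
            rw [← NNReal.coe_real_pi, ENNReal.ofReal_coe_nnreal]
          rw [h1, ← ENNReal.ofReal_mul (by positivity)]
          congr 1
          ring
  have hφ : AEMeasurable (fun z => ENNReal.ofReal (‖P' z‖ ^ 2)) (volume.restrict A) := by
    apply ENNReal.measurable_ofReal.comp_aemeasurable
    apply ContinuousOn.aemeasurable _ hAm
    exact ((hP'c.mono inter_subset_left).norm.pow 2)
  have hiter := iterated_eq hAm hφ
  have hlower : ENNReal.ofReal (d ^ 2 / (M - m)) * ENNReal.ofReal (u1 - u0) ≤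
      ∫⁻ u : ℝ, ∫⁻ v : ℝ, A.indicator (fun z => ENNReal.ofReal (‖P' z‖ ^ 2)) (u + v * I) := by
    calc ENNReal.ofReal (d ^ 2 / (M - m)) * ENNReal.ofReal (u1 - u0)
        = ∫⁻ u in Ioo u0 u1, ENNReal.ofReal (d ^ 2 / (M - m)) := by
          rw [setLIntegral_const, Real.volume_Ioo]
      _ ≤ ∫⁻ u in Ioo u0 u1, ∫⁻ v : ℝ,
            A.indicator (fun z => ENNReal.ofReal (‖P' z‖ ^ 2)) (u + v * I) := by
          apply setLIntegral_mono' measurableSet_Ioo
          intro u hu
          have he1 : √2 * ρ < Real.exp u := by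
            rw [← Real.log_lt_iff_lt_exp (by positivity)]
            exact hu.1
          have he2 : Real.exp u < (Ψ t 1).im := by
            rw [← Real.lt_log_iff_exp_lt hYpos]
            exact hu.2
          obtain ⟨va, hva, vb, hvb, ve, hve, h1, h2⟩ :=
            S.arc_points ht hts hwsH hwsn hwsre he1 he2
          have hRuv : ∀ v ∈ Ioo m M, (u + v * I : ℂ) ∈ R := by
            intro v hv
            simp only [hR, Set.mem_ofPred_eq]
            simp only [Complex.add_re, Complex.ofReal_re, Complex.mul_re, Complex.I_re, mul_zero,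
              Complex.ofReal_im, Complex.I_im, mul_one, sub_self, add_zero, Complex.add_im,
              Complex.mul_im, zero_add]
            exact ⟨hu, hv⟩
          have hline : ∀ v : ℝ, HasDerivAt (fun v : ℝ => (u + v * I : ℂ)) I v := by
            intro v
            have := ((Complex.ofRealCLM.hasDerivAt (x := v)).mul_const I).const_add (u : ℂ)
            simpa using this
          have henergy := energy_lower (g := fun v : ℝ => P (u + v * I))
            (g' := fun v : ℝ => P' (u + v * I) * I) (m := m) (M := M) (c := t) hdpos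
            (by rw [hm, hM]; linarith [Real.pi_pos])
            (fun v hv => HasDerivAt.comp (h₂ := P) (h := fun v : ℝ => (u + v * I : ℂ)) v
              (hPd _ (hRuv v hv)) (hline v))
            (by
              apply ContinuousOn.mul _ continuousOn_const
              exact hP'c.comp (by fun_prop) hRuv) hva hvb hve h1 h2
          refine henergy.trans ?_
          have hAmeas : MeasurableSet (Ioo m M ∩ {v : ℝ | ‖P (u + v * I) - t‖ < 2 * d}) := by
            have h3 : Ioo m M ∩ {v : ℝ | ‖P (u + v * I) - t‖ < 2 * d} =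
                (fun v : ℝ => (u + v * I : ℂ)) ⁻¹' A := by
              ext v
              constructor
              · rintro ⟨h4, h5⟩
                exact ⟨hRuv v h4, h5⟩
              · rintro ⟨h4, h5⟩
                refine ⟨?_, h5⟩
                have h6 := h4.2
                simp only [Complex.add_im, Complex.ofReal_im, Complex.mul_im, Complex.ofReal_re,
                  Complex.I_im, mul_one, Complex.I_re, mul_zero, add_zero, zero_add] at h6
                exact h6
            rw [h3]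
            exact (hAo.preimage (by fun_prop)).measurableSet
          rw [← lintegral_indicator hAmeas]
          apply lintegral_mono
          intro v
          dsimp only
          by_cases hv : v ∈ Ioo m M ∩ {v : ℝ | ‖P (u + v * I) - t‖ < 2 * d}
          · have h5 : (u + v * I : ℂ) ∈ A := ⟨hRuv v hv.1, hv.2⟩
            rw [indicator_of_mem hv, indicator_of_mem h5]
            simp only [norm_mul, Complex.norm_I, mul_one]
            exact le_rfl
          · rw [indicator_of_notMem hv]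
            exact zero_le
      _ ≤ _ := setLIntegral_le_lintegral _ _
  have htotal := (hlower.trans (hiter.le.trans hupper))
  have hpi := Real.pi_pos
  have hMm : M - m = Real.pi := by rw [hM, hm]; ring
  rw [hMm, ← ENNReal.ofReal_mul (by positivity),
    ENNReal.ofReal_le_ofReal_iff (by positivity)] at htotal
  rw [div_mul_eq_mul_div, div_le_iff₀ hpi] at htotal
  have h1 : d ^ 2 * (u1 - u0) ≤ d ^ 2 * (4 * Real.pi ^ 2) := by nlinarith
  exact le_of_mul_le_mul_left h1 (by positivity)

end HSemi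

end H31.Orth
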