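import Pool.Agent.H31.Orth.HalfPlane

/-!
# Wolff's lemma at infinity and the monotonicity (Noshiro–Warschawski) inequality
-/

namespace H31.Orth

open Complex Metric Set Filter Topology ComplexConjugate

lemma tendsto_ratio {a : ℕ → ℂ} (ha : Tendsto (fun n => ‖a n‖) atTop atTop) (z : ℂ) :
    Tendsto (fun n => ‖z + conj (a n)‖ ^ 2 / ‖a n‖ ^ 2) atTop (𝓝 1) := by
  have h1 : Tendsto (fun n => ‖z‖ / ‖a n‖) atTop (𝓝 0) := tendsto_const_nhds.div_atTop ha
  have h2 : Tendsto (fun n => ‖z + conj (a n)‖ / ‖a n‖ - 1) atTop (𝓝 0) := by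
    apply squeeze_zero_norm' _ h1
    filter_upwards [ha.eventually_gt_atTop 0] with n hn
    rw [Real.norm_eq_abs, div_sub_one hn.ne', abs_div, abs_of_pos hn]
    gcongr
    have := abs_norm_sub_norm_le (z + conj (a n)) (conj (a n))
    simpa using this
  have h3 : Tendsto (fun n => ‖z + conj (a n)‖ / ‖a n‖) atTop (𝓝 1) := by
    have := h2.add_const 1
    simpa using this
  have h4 := h3.pow 2
  simpa [div_pow] using h4

/-- Wolff's lemma with the Denjoy–Wolff point at infinity. -/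
theorem wolff {ψ : ℂ → ℂ} (hψ : DifferentiableOn ℂ ψ HH) (hm : MapsTo ψ HH HH)
    {a : ℕ → ℂ} (haH : ∀ n, a n ∈ HH) (hs : ∀ n, ψ (a n) = a (n + 1))
    (ha : Tendsto (fun n => ‖a n‖) atTop atTop) {z : ℂ} (hz : z ∈ HH) :
    z.re ≤ (ψ z).re := by
  by_contra hlt
  push Not at hlt
  have hψz : 0 < (ψ z).re := hm hz
  have hz' : 0 < z.re := hz
  have ha' : Tendsto (fun n => ‖a (n + 1)‖) atTop atTop := ha.comp (tendsto_add_atTop_nat 1)
  have r1 := tendsto_ratio ha z
  have r2 : Tendsto (fun n => ‖ψ z + conj (a (n + 1))‖ ^ 2 / ‖a (n + 1)‖ ^ 2) atTop (𝓝 1) :=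
    (tendsto_ratio ha (ψ z)).comp (tendsto_add_atTop_nat 1)
  have r3 := r1.div r2 one_ne_zero
  rw [div_one] at r3
  have hq : 1 < z.re / (ψ z).re := by rwa [one_lt_div hψz]
  have e1 := r3.eventually_lt_const hq
  have e2 := ha.eventually_gt_atTop 0
  have e3 := ha'.eventually_gt_atTop 0
  -- the quantity b n = re (a n) / ‖a n‖^2 is eventually nondecreasing
  have key : ∀ᶠ n in atTop, (a n).re / ‖a n‖ ^ 2 ≤ (a (n + 1)).re / ‖a (n + 1)‖ ^ 2 := by
    filter_upwards [e1, e2, e3] with n h1 h2 h3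
    have sp := schwarz_pick hψ hm hz (haH n)
    rw [hs n] at sp
    have sp2 : (‖ψ z - a (n + 1)‖ * ‖z + conj (a n)‖) ^ 2 ≤
        (‖z - a n‖ * ‖ψ z + conj (a (n + 1))‖) ^ 2 := by gcongr
    rw [mul_pow, mul_pow] at sp2
    have i1 := normSq_add_sub z (a n)
    have i2 := normSq_add_sub (ψ z) (a (n + 1))
    have i1' : ‖z - a n‖ ^ 2 = ‖z + conj (a n)‖ ^ 2 - 4 * z.re * (a n).re := by linarith
    have i2' : ‖ψ z - a (n + 1)‖ ^ 2 =
        ‖ψ z + conj (a (n + 1))‖ ^ 2 - 4 * (ψ z).re * (a (n + 1)).re := by linarith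
    rw [i1', i2'] at sp2
    have sp3 : z.re * (a n).re * ‖ψ z + conj (a (n + 1))‖ ^ 2 ≤
        (ψ z).re * (a (n + 1)).re * ‖z + conj (a n)‖ ^ 2 := by nlinarith
    have p1 : 0 < ‖z + conj (a n)‖ ^ 2 := by
      have := norm_pos_iff.2 (add_conj_ne_zero hz (haH n))
      positivity
    have p2 : 0 < ‖ψ z + conj (a (n + 1))‖ ^ 2 := by
      have := norm_pos_iff.2 (add_conj_ne_zero (hm hz) (haH (n + 1)))
      positivity
    set X := ‖z + conj (a n)‖ ^ 2
    set Y := ‖ψ z + conj (a (n + 1))‖ ^ 2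
    set A := ‖a n‖ ^ 2 with hA
    set B := ‖a (n + 1)‖ ^ 2 with hB
    have pA : 0 < A := by positivity
    have pB : 0 < B := by positivity
    have pa : 0 < (a n).re := haH n
    have pb : 0 < (a (n + 1)).re := haH (n + 1)
    have h1' : (ψ z).re * X * B < z.re * Y * A := by
      have h1a : X / A / (Y / B) < z.re / (ψ z).re := h1
      rw [div_div_div_eq, div_lt_div_iff₀ (by positivity) hψz] at h1a
      nlinarith
    rw [div_le_div_iff₀ pA pB]
    -- (a n).re * B ≤ (a (n+1)).re * A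
    have h5 : z.re * (a n).re * Y * B ≤ (ψ z).re * (a (n + 1)).re * X * B := by gcongr
    have h6 : (a (n + 1)).re * ((ψ z).re * X * B) ≤ (a (n + 1)).re * (z.re * Y * A) := by
      gcongr
    have h7 : (z.re * Y) * ((a n).re * B) ≤ (z.re * Y) * ((a (n + 1)).re * A) := by
      nlinarith
    exact le_of_mul_le_mul_left h7 (by positivity)
  obtain ⟨N, hN⟩ := eventually_atTop.1 key
  have mono : ∀ n, N ≤ n → (a N).re / ‖a N‖ ^ 2 ≤ (a n).re / ‖a n‖ ^ 2 := by
    intro n hn
    induction n, hn using Nat.le_induction with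
    | base => exact le_rfl
    | succ n hn ih => exact ih.trans (hN n hn)
  have lim0 : Tendsto (fun n => (a n).re / ‖a n‖ ^ 2) atTop (𝓝 0) := by
    have h1 : Tendsto (fun n => 1 / ‖a n‖) atTop (𝓝 0) := tendsto_const_nhds.div_atTop ha
    apply squeeze_zero' _ _ h1
    · filter_upwards with n
      have : 0 < (a n).re := haH n
      positivity
    · filter_upwards [e2] with n h2
      rw [div_le_div_iff₀ (by positivity) h2]
      have : (a n).re ≤ ‖a n‖ := (Complex.re_le_norm _)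
      nlinarith
  have hN0 : (a N).re / ‖a N‖ ^ 2 ≤ 0 :=
    ge_of_tendsto lim0 (eventually_atTop.2 ⟨N, mono⟩)
  have haN : 0 < (a N).re := haH N
  have haN' : 0 < ‖a N‖ := haN.trans_le (Complex.re_le_norm _)
  have : 0 < (a N).re / ‖a N‖ ^ 2 := by positivity
  linarith

/-- Semigroup data in the half-plane with Denjoy–Wolff point at infinity and (rotated) Koenigs
function `Q`. -/
structure HSemi (Ψ : ℝ → ℂ → ℂ) (Q : ℂ → ℂ) : Prop where
  holo : ∀ t, 0 ≤ t → DifferentiableOn ℂ (Ψ t) HH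
  maps : ∀ t, 0 ≤ t → MapsTo (Ψ t) HH HH
  cont : ∀ z ∈ HH, ContinuousOn (fun t => Ψ t z) (Ici 0)
  tend : Tendsto (fun t => ‖Ψ t 1‖) atTop atTop
  qholo : DifferentiableOn ℂ Q HH
  qinj : InjOn Q HH
  qsemi : ∀ t : ℝ, 0 ≤ t → ∀ z ∈ HH, Q (Ψ t z) = Q z + t
  q1 : Q 1 = 0

namespace HSemi

variable {Ψ : ℝ → ℂ → ℂ} {Q : ℂ → ℂ} (S : HSemi Ψ Q)

include S

lemma zero {z : ℂ} (hz : z ∈ HH) : Ψ 0 z = z := by
  apply S.qinj (S.maps 0 le_rfl hz) hz
  rw [S.qsemi 0 le_rfl z hz]
  simp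

lemma add {t s : ℝ} (ht : 0 ≤ t) (hs : 0 ≤ s) {z : ℂ} (hz : z ∈ HH) :
    Ψ t (Ψ s z) = Ψ (s + t) z := by
  apply S.qinj (S.maps t ht (S.maps s hs hz)) (S.maps _ (by positivity) hz)
  rw [S.qsemi t ht _ (S.maps s hs hz), S.qsemi s hs z hz, S.qsemi _ (by positivity) z hz]
  push_cast
  ring

lemma re_mono {t : ℝ} (ht : 0 ≤ t) {z : ℂ} (hz : z ∈ HH) : z.re ≤ (Ψ t z).re := by
  rcases ht.eq_or_lt with rfl | ht'
  · rw [S.zero hz]
  · apply wolff (S.holo t ht) (S.maps t ht) (a := fun n => Ψ (n * t) 1) _ _ _ hz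
    · intro n
      exact S.maps _ (by positivity) one_mem_HH
    · intro n
      rw [S.add ht (by positivity) one_mem_HH]
      congr 1
      push_cast
      ring
    · exact S.tend.comp (tendsto_natCast_atTop_atTop.atTop_mul_const ht')

lemma hasDerivAt {z : ℂ} (hz : z ∈ HH) : HasDerivAt Q (deriv Q z) z :=
  (S.qholo.differentiableAt (isOpen_HH.mem_nhds hz)).hasDerivAt

lemma re_deriv_nonneg {z : ℂ} (hz : z ∈ HH) : 0 ≤ (deriv Q z).re := by
  have hd := hasDerivAt_iff_tendsto_slope.1 (S.hasDerivAt hz)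
  have ht0 : Tendsto (fun n : ℕ => (1 : ℝ) / ((n : ℝ) + 1)) atTop (𝓝 0) :=
    tendsto_one_div_add_atTop_nhds_zero_nat
  have hpos : ∀ n : ℕ, 0 < (1 : ℝ) / ((n : ℝ) + 1) := fun n => by positivity
  have hζ : Tendsto (fun n : ℕ => Ψ ((1 : ℝ) / ((n : ℝ) + 1)) z) atTop (𝓝[≠] z) := by
    rw [tendsto_nhdsWithin_iff]
    constructor
    · have hc := (S.cont z hz) 0 (by simp)
      have h1 : Tendsto (fun n : ℕ => (1 : ℝ) / ((n : ℝ) + 1)) atTop (𝓝[Ici 0] 0) := by
        rw [tendsto_nhdsWithin_iff]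
        exact ⟨ht0, Eventually.of_forall fun n => (hpos n).le⟩
      have h2 := hc.tendsto.comp h1
      rw [S.zero hz] at h2
      exact h2
    · filter_upwards with n
      intro h
      have h1 := S.qsemi _ (hpos n).le z hz
      rw [Set.mem_singleton_iff] at h
      rw [h] at h1
      have h2 : (((1 : ℝ) / ((n : ℝ) + 1) : ℝ) : ℂ) = 0 := by linear_combination -h1
      rw [Complex.ofReal_eq_zero] at h2
      exact (hpos n).ne' h2
  have h3 := hd.comp hζ
  have h4 : Tendsto (fun n : ℕ => (slope Q z (Ψ ((1 : ℝ) / ((n : ℝ) + 1)) z)).re) atTop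
      (𝓝 (deriv Q z).re) := (Complex.continuous_re.tendsto _).comp h3
  apply ge_of_tendsto' h4
  intro n
  rw [slope_def_field, S.qsemi _ (hpos n).le z hz, add_sub_cancel_left, Complex.div_re]
  have h5 := S.re_mono (hpos n).le hz
  have h6 : 0 ≤ (Ψ ((1 : ℝ) / ((n : ℝ) + 1)) z - z).re := by
    rw [Complex.sub_re]; linarith
  rw [Complex.ofReal_im, Complex.ofReal_re]
  have h7 := Complex.normSq_nonneg (Ψ ((1 : ℝ) / ((n : ℝ) + 1)) z - z)
  have h8 := hpos n
  simp only [zero_mul, zero_div, add_zero]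
  positivity

end HSemi

/-- A segment path in the half-plane. -/
lemma seg_mem {a b : ℂ} (ha : a ∈ HH) (hb : b ∈ HH) {s : ℝ} (hs : s ∈ Icc (0 : ℝ) 1) :
    a + s * (b - a) ∈ HH := by
  have := convex_HH ha hb (by linarith [hs.2] : (0 : ℝ) ≤ 1 - s) hs.1 (by ring)
  convert this using 1
  simp only [Complex.real_smul]
  push_cast
  ring

lemma hasDerivAt_seg {Q : ℂ → ℂ} (hQ : DifferentiableOn ℂ Q HH) {a b : ℂ} (ha : a ∈ HH)
    (hb : b ∈ HH) {s : ℝ} (hs : s ∈ Icc (0 : ℝ) 1) :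
    HasDerivAt (fun s : ℝ => (Q (a + s * (b - a)) * conj (b - a)).re)
      ((deriv Q (a + s * (b - a))).re * ‖b - a‖ ^ 2) s := by
  have h1 : HasDerivAt Q (deriv Q (a + s * (b - a))) (a + s * (b - a)) :=
    (hQ.differentiableAt (isOpen_HH.mem_nhds (seg_mem ha hb hs))).hasDerivAt
  have h2 : HasDerivAt (fun s : ℝ => a + (s : ℂ) * (b - a)) (b - a) s := by
    have := ((Complex.ofRealCLM.hasDerivAt (x := s)).mul_const (b - a)).const_add a
    simpa using this
  have h3 : HasDerivAt (fun s : ℝ => Q (a + (s : ℂ) * (b - a)))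
      (deriv Q (a + s * (b - a)) * (b - a)) s := h1.comp s h2
  have h4 := h3.mul_const (conj (b - a))
  have h5 := Complex.reCLM.hasFDerivAt.comp_hasDerivAt s h4
  have h6 : (deriv Q (a + s * (b - a))).re * ‖b - a‖ ^ 2 =
      Complex.reCLM (deriv Q (a + ↑s * (b - a)) * (b - a) * (starRingEnd ℂ) (b - a)) := by
    rw [mul_assoc, Complex.mul_conj, Complex.reCLM_apply, Complex.normSq_eq_norm_sq,
      Complex.re_mul_ofReal]
  rw [h6]
  exact h5

lemma nw_of_nonneg {Q : ℂ → ℂ} (hQ : DifferentiableOn ℂ Q HH)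
    (hre : ∀ z ∈ HH, 0 ≤ (deriv Q z).re) {a b : ℂ} (ha : a ∈ HH) (hb : b ∈ HH) :
    0 ≤ ((Q b - Q a) * conj (b - a)).re := by
  have hmono : MonotoneOn (fun s : ℝ => (Q (a + s * (b - a)) * conj (b - a)).re) (Icc 0 1) := by
    apply monotoneOn_of_deriv_nonneg (convex_Icc 0 1)
    · intro s hs
      exact (hasDerivAt_seg hQ ha hb hs).continuousAt.continuousWithinAt
    · intro s hs
      exact (hasDerivAt_seg hQ ha hb (interior_subset hs)).differentiableAt.differentiableWithinAt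
    · intro s hs
      rw [(hasDerivAt_seg hQ ha hb (interior_subset hs)).deriv]
      have := hre _ (seg_mem ha hb (interior_subset hs))
      positivity
  have h := hmono (left_mem_Icc.2 zero_le_one) (right_mem_Icc.2 zero_le_one) zero_le_one
  simp only [Complex.ofReal_zero, zero_mul, add_zero, Complex.ofReal_one, one_mul,
    add_sub_cancel] at h
  rw [sub_mul, Complex.sub_re]
  linarith

lemma nw_of_pos {Q : ℂ → ℂ} (hQ : DifferentiableOn ℂ Q HH)
    (hre : ∀ z ∈ HH, 0 < (deriv Q z).re) {a b : ℂ} (ha : a ∈ HH) (hb : b ∈ HH) (hab : a ≠ b) :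
    0 < ((Q b - Q a) * conj (b - a)).re := by
  have hmono : StrictMonoOn (fun s : ℝ => (Q (a + s * (b - a)) * conj (b - a)).re)
      (Icc 0 1) := by
    apply strictMonoOn_of_deriv_pos (convex_Icc 0 1)
    · intro s hs
      exact (hasDerivAt_seg hQ ha hb hs).continuousAt.continuousWithinAt
    · intro s hs
      rw [(hasDerivAt_seg hQ ha hb (interior_subset hs)).deriv]
      have := hre _ (seg_mem ha hb (interior_subset hs))
      have h2 : 0 < ‖b - a‖ := norm_pos_iff.2 (sub_ne_zero.2 hab.symm)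
      positivity
  have h := hmono (left_mem_Icc.2 zero_le_one) (right_mem_Icc.2 zero_le_one) zero_lt_one
  simp only [Complex.ofReal_zero, zero_mul, add_zero, Complex.ofReal_one, one_mul,
    add_sub_cancel] at h
  rw [sub_mul, Complex.sub_re]
  linarith

namespace HSemi

variable {Ψ : ℝ → ℂ → ℂ} {Q : ℂ → ℂ} (S : HSemi Ψ Q)

include S

/-- The monotonicity inequality. -/
lemma nw {a b : ℂ} (ha : a ∈ HH) (hb : b ∈ HH) : 0 ≤ ((Q b - Q a) * conj (b - a)).re :=
  nw_of_nonneg S.qholo (fun _ hz => S.re_deriv_nonneg hz) ha hb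

/-- Two points whose images differ by a positive real number. -/
lemma re_le_of_im_eq {a b : ℂ} (ha : a ∈ HH) (hb : b ∈ HH) (him : (Q a).im = (Q b).im)
    (hre : (Q a).re < (Q b).re) : a.re ≤ b.re := by
  have h := S.nw ha hb
  rw [Complex.mul_re] at h
  simp only [Complex.sub_re, Complex.sub_im, Complex.conj_re, Complex.conj_im] at h
  rw [him, sub_self, zero_mul, sub_zero] at h
  nlinarith

/-- Two points whose images have the same real part. -/
lemma im_mul_nonneg {a b : ℂ} (ha : a ∈ HH) (hb : b ∈ HH) (hre : (Q a).re = (Q b).re) :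
    0 ≤ ((Q b).im - (Q a).im) * (b.im - a.im) := by
  have h := S.nw ha hb
  rw [Complex.mul_re] at h
  simp only [Complex.sub_re, Complex.sub_im, Complex.conj_re, Complex.conj_im] at h
  rw [hre, sub_self, zero_mul] at h
  linarith

/-- Two points on a vertical line. -/
lemma im_mul_nonneg' {a b : ℂ} (ha : a ∈ HH) (hb : b ∈ HH) (hre : a.re = b.re) :
    0 ≤ ((Q b).im - (Q a).im) * (b.im - a.im) := by
  have h := S.nw ha hb
  rw [Complex.mul_re] at h
  simp only [Complex.sub_re, Complex.sub_im, Complex.conj_re, Complex.conj_im] at h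
  rw [hre, sub_self, mul_zero] at h
  linarith

/-- The dichotomy: either `Re Q' > 0` everywhere, or `Q` is a rotation-dilation. -/
lemma dichotomy : (∀ z ∈ HH, 0 < (deriv Q z).re) ∨
    ∃ c : ℝ, c ≠ 0 ∧ ∀ z ∈ HH, Q z = (c : ℂ) * I * (z - 1) := by
  have han : AnalyticOnNhd ℂ (deriv Q) HH :=
    (S.qholo.analyticOnNhd isOpen_HH).deriv
  rcases han.is_constant_or_isOpen isPreconnected_HH with ⟨w, hw⟩ | hopen
  · have h1 : 0 ≤ w.re := by
      rw [← hw 1 one_mem_HH]
      exact S.re_deriv_nonneg one_mem_HH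
    rcases h1.eq_or_lt with h0 | hpos
    · right
      have hQ : ∀ z ∈ HH, Q z = w * (z - 1) := by
        intro z hz
        have hd : ∀ x ∈ HH, HasDerivWithinAt (fun z => Q z - w * (z - 1)) 0 HH x := by
          intro x hx
          have h2 := S.hasDerivAt hx
          rw [hw x hx] at h2
          have h3 := h2.sub (((hasDerivAt_id x).sub_const 1).const_mul w)
          rw [mul_one, sub_self] at h3
          exact h3.hasDerivWithinAt
        have h4 := convex_HH.norm_image_sub_le_of_norm_hasDerivWithin_le (C := 0) hd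
          (by simp) one_mem_HH hz
        simp only [S.q1, sub_self, mul_zero, sub_zero, zero_mul] at h4
        have h5 := norm_le_zero_iff.1 h4
        linear_combination h5
      refine ⟨w.im, ?_, ?_⟩
      · intro him
        have hw0 : w = 0 := Complex.ext h0.symm him
        have h2 : (2 : ℂ) ∈ HH := by simp [mem_HH]
        have h3 := S.qinj h2 one_mem_HH (by rw [hQ 2 h2, hQ 1 one_mem_HH, hw0]; simp)
        norm_num at h3
      · intro z hz
        rw [hQ z hz]
        congr 1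
        apply Complex.ext <;> simp [← h0]
    · left
      intro z hz
      rw [hw z hz]
      exact hpos
  · left
    intro z hz
    have ho := hopen HH subset_rfl isOpen_HH
    have hsub : deriv Q '' HH ⊆ {z | 0 ≤ z.re} := by
      rintro _ ⟨x, hx, rfl⟩
      exact S.re_deriv_nonneg hx
    have h2 : deriv Q z ∈ interior {z : ℂ | 0 ≤ z.re} :=
      interior_maximal hsub ho (mem_image_of_mem _ hz)
    have h3 : interior {z : ℂ | 0 ≤ z.re} = {z | 0 < z.re} := Complex.interior_setOfPred_le_re 0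
    rw [h3] at h2
    exact h2

lemma deriv_ne_zero {z : ℂ} (hz : z ∈ HH) : deriv Q z ≠ 0 := by
  rcases S.dichotomy with h | ⟨c, hc, h⟩
  · intro h0
    have := h z hz
    rw [h0] at this
    simp at this
  · have h1 : HasDerivAt (fun z => (c : ℂ) * I * (z - 1)) ((c : ℂ) * I * 1) z :=
      ((hasDerivAt_id z).sub_const 1).const_mul _
    have h2 : deriv Q z = (c : ℂ) * I * 1 := by
      apply HasDerivAt.deriv
      apply h1.congr_of_eventuallyEq
      filter_upwards [isOpen_HH.mem_nhds hz] with x hx using h x hx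
    rw [h2]
    simp [hc]

/-- Basic facts on the orbit of `1`. -/
lemma orbit_mem {t : ℝ} (ht : 0 ≤ t) : Ψ t 1 ∈ HH := S.maps t ht one_mem_HH

lemma orbit_q {t : ℝ} (ht : 0 ≤ t) : Q (Ψ t 1) = t := by
  rw [S.qsemi t ht 1 one_mem_HH, S.q1, zero_add]

lemma orbit_re_mono {t s : ℝ} (ht : 0 ≤ t) (hts : t ≤ s) : (Ψ t 1).re ≤ (Ψ s 1).re := by
  have h := S.re_mono (sub_nonneg.2 hts) (S.orbit_mem ht)
  rw [S.add (sub_nonneg.2 hts) ht one_mem_HH] at h
  simpa using h

lemma orbit_one_le_re {t : ℝ} (ht : 0 ≤ t) : 1 ≤ (Ψ t 1).re := by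
  have h := S.re_mono ht one_mem_HH
  simpa using h

end HSemi

end H31.Orth
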